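import Pool.Agent.HyE.CDefs

/-!
# Package HyE-Cant: correctness of Cantor's algorithm

Complete proofs.

* `cmp_spec`: `xg_spec` twice gives the hypotheses of `cl_comp` with `s₁ = c t₁ r₁`, `s₂ = c t₁ r₂`,
  `s₃ = c t₂` (`c` the inverse of the leading coefficient of the second gcd, which is not `0` as it
  divides `u₁ ≠ 0`); divisions by `d`, `d²` are exact (`EuclideanDomain.mul_div_cancel_left`,
  `comp_dvd`); then replace `v` by `v % u` (`SP.congr`, `idl_congr`). `u ∣ u₁ u₂` gives the degree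
  bound.
* `rds_spec`: `(f - v²) / u` is exact; `cl_redu`, `redu_deg`, `SP.congr`, `idl_congr`.
* `rdn_spec`: induction on `n`: if `natDegree ≤ g + 1 + n` the result has `natDegree ≤ g + 1`.
* `law_spec`: two compositions have degree `≤ g + g + 1`, the reduction degree `≤ g + 1`; its parity
  is that of `g` by `par_cl` (class of `idl w₁ * idl w₂ * cjI E`, degrees `g + g + g` mod `2`), so
  `≤ g`. -/

set_option autoImplicit false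

noncomputable section

namespace Pool.Agent.HyE

open Polynomial Pool.Agent.PRc
open scoped Classical

variable {k : Type} [Field k] {f : k[X]} [hf : Fact (Inert f)]

private theorem dvd_sub_mod_Cant (v u : k[X]) : u ∣ v - v % u := by
  refine ⟨v / u, ?_⟩
  rw [sub_eq_iff_eq_add]
  exact (EuclideanDomain.div_add_mod v u).symm

theorem cmp_spec {N : ℕ} {w₁ w₂ : k[X] × k[X]} (h₁ : SP f w₁.1 w₁.2) (h₂ : SP f w₂.1 w₂.2)
    (hN₁ : w₂.1.natDegree < N) (hN₂ : (w₁.2 + w₂.2).natDegree < N) :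
    SP f (cmp N f w₁ w₂).1 (cmp N f w₁ w₂).2 ∧
      (cmp N f w₁ w₂).2.degree < (cmp N f w₁ w₂).1.degree ∧
      (cmp N f w₁ w₂).1.natDegree ≤ w₁.1.natDegree + w₂.1.natDegree ∧
      cl (idl f (cmp N f w₁ w₂).1 (cmp N f w₁ w₂).2) =
        cl (idl f w₁.1 w₁.2) * cl (idl f w₂.1 w₂.2) := by
  obtain ⟨u₁, v₁⟩ := w₁
  obtain ⟨u₂, v₂⟩ := w₂
  simp only at h₁ h₂ hN₁ hN₂
  obtain ⟨hx, hx1, hx2⟩ := xg_spec N u₁ u₂ (Or.inr hN₁)
  obtain ⟨hy, hy1, hy2⟩ := xg_spec N (xg N u₁ u₂).1 (v₁ + v₂) (Or.inr hN₂)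
  unfold cmp
  simp only
  generalize (xg N (xg N u₁ u₂).1 (v₁ + v₂)).1 = g₂ at *
  generalize (xg N (xg N u₁ u₂).1 (v₁ + v₂)).2.1 = p₂ at *
  generalize (xg N (xg N u₁ u₂).1 (v₁ + v₂)).2.2 = q₂ at *
  generalize (xg N u₁ u₂).1 = g₁ at *
  generalize (xg N u₁ u₂).2.1 = p₁ at *
  generalize (xg N u₁ u₂).2.2 = q₁ at *
  have hu₁ : u₁ ≠ 0 := h₁.1.ne_zero
  have hu₂ : u₂ ≠ 0 := h₂.1.ne_zero
  have hg₁ : g₁ ≠ 0 := fun h => hu₁ (zero_dvd_iff.1 (h ▸ hx1))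
  have hg₂ : g₂ ≠ 0 := fun h => hg₁ (zero_dvd_iff.1 (h ▸ hy1))
  have hc : IsUnit (C g₂.leadingCoeff⁻¹ : k[X]) :=
    isUnit_C.2 (isUnit_iff_ne_zero.2 (inv_ne_zero (leadingCoeff_ne_zero.2 hg₂)))
  have hd : (C g₂.leadingCoeff⁻¹ * g₂).Monic := by
    rw [mul_comm]
    exact monic_mul_leadingCoeff_inv hg₂
  have hdg : C g₂.leadingCoeff⁻¹ * g₂ ∣ g₂ := (hc.mul_left_dvd).2 dvd_rfl
  have hd₁ : C g₂.leadingCoeff⁻¹ * g₂ ∣ u₁ := hdg.trans (hy1.trans hx1)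
  have hd₂ : C g₂.leadingCoeff⁻¹ * g₂ ∣ u₂ := hdg.trans (hy1.trans hx2)
  have hd₃ : C g₂.leadingCoeff⁻¹ * g₂ ∣ v₁ + v₂ := hdg.trans hy2
  have hs : C g₂.leadingCoeff⁻¹ * g₂ = (C g₂.leadingCoeff⁻¹ * p₂ * p₁) * u₁ +
      (C g₂.leadingCoeff⁻¹ * p₂ * q₁) * u₂ + (C g₂.leadingCoeff⁻¹ * q₂) * (v₁ + v₂) := by
    calc C g₂.leadingCoeff⁻¹ * g₂ = C g₂.leadingCoeff⁻¹ * (p₂ * g₁ + q₂ * (v₁ + v₂)) :=
          congrArg (fun t => C g₂.leadingCoeff⁻¹ * t) hy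
      _ = C g₂.leadingCoeff⁻¹ * (p₂ * (p₁ * u₁ + q₁ * u₂) + q₂ * (v₁ + v₂)) := by
          rw [← hx]
      _ = _ := by ring
  have hcd := comp_dvd (s₁ := C g₂.leadingCoeff⁻¹ * p₂ * p₁) (s₂ := C g₂.leadingCoeff⁻¹ * p₂ * q₁)
    (s₃ := C g₂.leadingCoeff⁻¹ * q₂) h₁ h₂ hd₁ hd₂ hd₃
  have he : C g₂.leadingCoeff⁻¹ * (p₂ * p₁ * u₁ * v₂ + p₂ * q₁ * u₂ * v₁ + q₂ * (f + v₁ * v₂)) =
      C g₂.leadingCoeff⁻¹ * p₂ * p₁ * u₁ * v₂ + C g₂.leadingCoeff⁻¹ * p₂ * q₁ * u₂ * v₁ +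
        C g₂.leadingCoeff⁻¹ * q₂ * (f + v₁ * v₂) := by ring
  rw [he]
  clear he
  generalize C g₂.leadingCoeff⁻¹ * p₂ * p₁ = s₁ at *
  generalize C g₂.leadingCoeff⁻¹ * p₂ * q₁ = s₂ at *
  generalize C g₂.leadingCoeff⁻¹ * q₂ = s₃ at *
  generalize C g₂.leadingCoeff⁻¹ * g₂ = d at *
  have hd0 : d ≠ 0 := hd.ne_zero
  have hu : d ^ 2 * (u₁ * u₂ / d ^ 2) = u₁ * u₂ := by
    apply EuclideanDomain.mul_div_cancel' (pow_ne_zero 2 hd0)
    rw [sq]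
    exact mul_dvd_mul hd₁ hd₂
  have hv : d * ((s₁ * u₁ * v₂ + s₂ * u₂ * v₁ + s₃ * (f + v₁ * v₂)) / d) =
      s₁ * u₁ * v₂ + s₂ * u₂ * v₁ + s₃ * (f + v₁ * v₂) :=
    EuclideanDomain.mul_div_cancel' hd0 hcd
  generalize u₁ * u₂ / d ^ 2 = u at *
  generalize (s₁ * u₁ * v₂ + s₂ * u₂ * v₁ + s₃ * (f + v₁ * v₂)) / d = v at *
  obtain ⟨hS, hcl⟩ := cl_comp h₁ h₂ hd hd₁ hd₂ hd₃ hs hu hv
  have hu0 : u ≠ 0 := hS.1.ne_zero
  have hm : u ∣ v - v % u := dvd_sub_mod_Cant v u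
  refine ⟨hS.congr hm, degree_mod_lt v hu0, ?_, ?_⟩
  · have hn := congrArg natDegree hu
    rw [natDegree_mul (pow_ne_zero 2 hd0) hu0, natDegree_mul hu₁ hu₂] at hn
    omega
  · rw [idl_congr hS hm, hcl]

theorem rds_spec {w : k[X] × k[X]} (h : SP f w.1 w.2) (hv : w.2.degree < w.1.degree)
    (hu : gn f + 1 < w.1.natDegree) :
    SP f (rds f w).1 (rds f w).2 ∧ (rds f w).2.degree < (rds f w).1.degree ∧
      (rds f w).1.natDegree < w.1.natDegree ∧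
      cl (idl f (rds f w).1 (rds f w).2) = cl (idl f w.1 w.2) := by
  obtain ⟨u, v⟩ := w
  simp only at h hv hu
  unfold rds
  simp only
  have hw : u * ((f - v ^ 2) / u) = f - v ^ 2 :=
    EuclideanDomain.mul_div_cancel' h.1.ne_zero h.2
  generalize (f - v ^ 2) / u = w at *
  obtain ⟨hS, hcl⟩ := cl_redu h hw
  have hdeg := redu_deg hf.out h hw hv hu
  generalize C w.leadingCoeff⁻¹ * w = u' at *
  have hm : u' ∣ -v - -v % u' := dvd_sub_mod_Cant (-v) u'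
  exact ⟨hS.congr hm, degree_mod_lt _ hS.1.ne_zero, hdeg, by rw [idl_congr hS hm, hcl]⟩

theorem rdn_spec (n : ℕ) {w : k[X] × k[X]} (h : SP f w.1 w.2) (hv : w.2.degree < w.1.degree)
    (hu : w.1.natDegree ≤ gn f + 1 + n) :
    SP f (rdn f (gn f) n w).1 (rdn f (gn f) n w).2 ∧
      (rdn f (gn f) n w).2.degree < (rdn f (gn f) n w).1.degree ∧
      (rdn f (gn f) n w).1.natDegree ≤ gn f + 1 ∧
      cl (idl f (rdn f (gn f) n w).1 (rdn f (gn f) n w).2) = cl (idl f w.1 w.2) := by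
  induction n generalizing w with
  | zero => exact ⟨h, hv, hu, rfl⟩
  | succ n ih =>
    by_cases hle : w.1.natDegree ≤ gn f + 1
    · have he : rdn f (gn f) (n + 1) w = w := by
        rw [rdn, if_pos hle]
      rw [he]
      exact ⟨h, hv, hle, rfl⟩
    · have he : rdn f (gn f) (n + 1) w = rdn f (gn f) n (rds f w) := by
        rw [rdn, if_neg hle]
      rw [he]
      obtain ⟨h1, h2, h3, h4⟩ := rds_spec h hv (not_le.1 hle)
      obtain ⟨i1, i2, i3, i4⟩ := ih h1 h2 (by omega)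
      exact ⟨i1, i2, i3, i4.trans h4⟩

theorem bse_spec {a b : k} (hab : gn f % 2 = 1 → b ^ 2 = f.eval a) :
    SP f (bse (gn f) a b).1 (bse (gn f) a b).2 ∧
      (bse (gn f) a b).2.degree < (bse (gn f) a b).1.degree ∧
      (bse (gn f) a b).1.natDegree ≤ 1 ∧ (bse (gn f) a b).1.natDegree % 2 = gn f % 2 := by
  unfold bse
  by_cases hg : gn f % 2 = 0
  · rw [if_pos hg]
    refine ⟨⟨monic_one, one_dvd _⟩, ?_, ?_, ?_⟩
    · simp
    · simp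
    · simp [hg]
  · rw [if_neg hg]
    have hg1 : gn f % 2 = 1 := by omega
    refine ⟨⟨monic_X_sub_C a, ?_⟩, ?_, ?_, ?_⟩
    · rw [dvd_iff_isRoot]
      simp [hab hg1]
    · show (C b).degree < (X - C a).degree
      rw [degree_X_sub_C]
      exact lt_of_le_of_lt degree_C_le (by norm_num)
    · exact (natDegree_X_sub_C a).le
    · show (X - C a).natDegree % 2 = gn f % 2
      rw [natDegree_X_sub_C, hg1]

theorem law_spec {a b : k} (hab : gn f % 2 = 1 → b ^ 2 = f.eval a) {w₁ w₂ : k[X] × k[X]}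
    (h₁ : w₁ ∈ CanS f) (h₂ : w₂ ∈ CanS f) :
    law (gn f) f a b w₁ w₂ ∈ CanS f ∧
      cl (idl f (law (gn f) f a b w₁ w₂).1 (law (gn f) f a b w₁ w₂).2) =
        cl (idl f w₁.1 w₁.2) * cl (idl f w₂.1 w₂.2) *
          (cl (idl f (bse (gn f) a b).1 (bse (gn f) a b).2))⁻¹ := by
  obtain ⟨hS₁, hv₁, hg₁, hp₁⟩ := h₁
  obtain ⟨hS₂, hv₂, hg₂, hp₂⟩ := h₂
  obtain ⟨hSE, hvE, hgE, hpE⟩ := bse_spec hab
  unfold law
  generalize bse (gn f) a b = E at *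
  have d₁ := natDegree_le_natDegree hv₁.le
  have d₂ := natDegree_le_natDegree hv₂.le
  have dE := natDegree_le_natDegree hvE.le
  have hN₂ : (w₁.2 + w₂.2).natDegree < 4 * gn f + 8 :=
    lt_of_le_of_lt (natDegree_add_le _ _) (by omega)
  obtain ⟨hSm, hvm, hgm, hcm⟩ := cmp_spec (N := 4 * gn f + 8) hS₁ hS₂ (by omega) hN₂
  generalize cmp (4 * gn f + 8) f w₁ w₂ = m at *
  have dm := natDegree_le_natDegree hvm.le
  have hSE' : SP f (E.1, -E.2).1 (E.1, -E.2).2 := hSE.neg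
  have hN₄ : (m.2 + (E.1, -E.2).2).natDegree < 4 * gn f + 8 := by
    refine lt_of_le_of_lt (natDegree_add_le _ _) ?_
    rw [show (E.1, -E.2).2.natDegree = E.2.natDegree from natDegree_neg _]
    omega
  obtain ⟨hSn, hvn, hgn, hcn⟩ := cmp_spec (N := 4 * gn f + 8) hSm hSE'
    (show E.1.natDegree < 4 * gn f + 8 by omega) hN₄
  generalize cmp (4 * gn f + 8) f m (E.1, -E.2) = n at *
  have hgn' : n.1.natDegree ≤ m.1.natDegree + E.1.natDegree := hgn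
  obtain ⟨hSr, hvr, hgr, hcr⟩ := rdn_spec (2 * gn f + 2) hSn hvn (by omega)
  generalize rdn f (gn f) (2 * gn f + 2) n = r at *
  have hcr' : cl (idl f r.1 r.2) =
      cl (idl f w₁.1 w₁.2) * cl (idl f w₂.1 w₂.2) * (cl (idl f E.1 E.2))⁻¹ := by
    rw [hcr, hcn, hcm, ← cl_neg hSE]
  refine ⟨⟨hSr, hvr, ?_, ?_⟩, hcr'⟩
  all_goals
    have b₁ := idl_ne_bot hS₁
    have b₂ := idl_ne_bot hS₂
    have bE := idl_ne_bot hSE.neg
    have b₁₂ : idl f w₁.1 w₁.2 * idl f w₂.1 w₂.2 ≠ ⊥ := mul_ne_zero b₁ b₂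
    have bJ : idl f w₁.1 w₁.2 * idl f w₂.1 w₂.2 * idl f E.1 (-E.2) ≠ ⊥ := mul_ne_zero b₁₂ bE
    have hcJ : cl (idl f r.1 r.2) =
        cl (idl f w₁.1 w₁.2 * idl f w₂.1 w₂.2 * idl f E.1 (-E.2)) := by
      rw [cl_mul b₁₂ bE, cl_mul b₁ b₂, cl_neg hSE, hcr']
    have hpar := par_cl (idl_ne_bot hSr) bJ hcJ
    rw [nrm_deg_mul hf.out b₁₂ bE, nrm_deg_mul hf.out b₁ b₂, nrm_idl hf.out hS₁,
      nrm_idl hf.out hS₂, nrm_idl hf.out hSE.neg, nrm_idl hf.out hSr] at hpar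
    omega

end Pool.Agent.HyE
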