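import Pool.Agent.HyE.CDefs
import Pool.Agent.PRc.Alg

/-!
# Package HyE-CantPR: Cantor's algorithm is piecewise rational

Complete proofs, by the calculus of `PRc` (`Basic`, `Poly`, `Div`, `Gcd`). Pairs of polynomials are
treated componentwise. `law_pr`: with `rdn` by induction on the number of steps (for all pairs of
families). `crd_law_pr`: the coordinates `crd g (law g (pol g c) (c 0) (c 1) (uof g x) (uof g y))` as
functions of `(x, y, c)`. `uof_crd`, `crd_uof`: comparison of coefficients.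
`canS_prd`: `Monic`: `PRD.monic`; `u ∣ f - v²`: `PRD.dvd`; `v.degree < u.degree` iff
`v = 0 ∨ v.natDegree < u.natDegree` for monic `u` (for `u = 1` only `v = 0`), a finite disjunction over
the degrees.
-/

set_option autoImplicit false

noncomputable section

namespace Pool.Agent.HyE

open Polynomial Pool.Agent.PRc
open scoped Classical

variable {ι : Type}

private theorem mdl {F G : FP ι} (hF : PRP F) (hG : PRP G) : PRP (fun k _ x => F k x / G k x) :=
  (PRP.divMod hF hG).1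

private theorem mdr {F G : FP ι} (hF : PRP F) (hG : PRP G) : PRP (fun k _ x => F k x % G k x) :=
  (PRP.divMod hF hG).2

private theorem leadInv {F : FP ι} (hF : PRP F) :
    PRP (fun k _ x => Polynomial.C ((F k x).leadingCoeff⁻¹) * F k x) :=
  PRP.mul (PRP.C (PRF.inv (PRF.lead hF))) hF

theorem cmp_pr (N : ℕ) {f a₁ b₁ a₂ b₂ : FP ι} (hf : PRP f) (ha₁ : PRP a₁) (hb₁ : PRP b₁)
    (ha₂ : PRP a₂) (hb₂ : PRP b₂) :
    PRP (fun k _ x => (cmp N (f k x) (a₁ k x, b₁ k x) (a₂ k x, b₂ k x)).1) ∧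
      PRP (fun k _ x => (cmp N (f k x) (a₁ k x, b₁ k x) (a₂ k x, b₂ k x)).2) := by
  obtain ⟨h1, h2, h3⟩ := xg_pr N ha₁ ha₂
  obtain ⟨h4, h5, h6⟩ := xg_pr N h1 (PRP.add hb₁ hb₂)
  have h7 := leadInv h4
  have h8 := mdl (PRP.mul ha₁ ha₂) (PRP.pow h7 2)
  refine ⟨h8, ?_⟩
  have h9 := PRP.mul (PRP.C (PRF.inv (PRF.lead h4)))
    (PRP.add (PRP.add (PRP.mul (PRP.mul (PRP.mul h5 h2) ha₁) hb₂)
      (PRP.mul (PRP.mul (PRP.mul h5 h3) ha₂) hb₁))
      (PRP.mul h6 (PRP.add hf (PRP.mul hb₁ hb₂))))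
  exact mdr (mdl h9 h7) h8

private theorem rds_pr {f a b : FP ι} (hf : PRP f) (ha : PRP a) (hb : PRP b) :
    PRP (fun k _ x => (rds (f k x) (a k x, b k x)).1) ∧
      PRP (fun k _ x => (rds (f k x) (a k x, b k x)).2) := by
  have h1 := mdl (PRP.sub hf (PRP.pow hb 2)) ha
  have h2 := leadInv h1
  exact ⟨h2, mdr (PRP.neg hb) h2⟩

theorem rdn_pr (g n : ℕ) {f a b : FP ι} (hf : PRP f) (ha : PRP a) (hb : PRP b) :
    PRP (fun k _ x => (rdn (f k x) g n (a k x, b k x)).1) ∧
      PRP (fun k _ x => (rdn (f k x) g n (a k x, b k x)).2) := by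
  induction n generalizing a b with
  | zero => exact ⟨ha, hb⟩
  | succ n ih =>
    obtain ⟨h1, h2⟩ := rds_pr hf ha hb
    obtain ⟨h3, h4⟩ := ih h1 h2
    constructor
    · refine PRP.congr (PRP.iteD (PRD.degLe ha (g + 1)) ha h3) fun k _ x => ?_
      by_cases h : (a k x).natDegree ≤ g + 1
      · simp only [rdn, if_pos h]
      · simp only [rdn, if_neg h]
    · refine PRP.congr (PRP.iteD (PRD.degLe ha (g + 1)) hb h4) fun k _ x => ?_
      by_cases h : (a k x).natDegree ≤ g + 1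
      · simp only [rdn, if_pos h]
      · simp only [rdn, if_neg h]

private theorem bse_pr (g : ℕ) {a b : FF ι} (ha : PRF a) (hb : PRF b) :
    PRP (fun k _ x => (bse g (a k x) (b k x)).1) ∧
      PRP (fun k _ x => (bse g (a k x) (b k x)).2) := by
  by_cases h : g % 2 = 0
  · constructor
    · refine PRP.congr PRP.one fun k _ x => ?_
      simp only [bse, if_pos h]
    · refine PRP.congr PRP.zero fun k _ x => ?_
      simp only [bse, if_pos h]
  · constructor
    · refine PRP.congr (PRP.sub PRP.X (PRP.C ha)) fun k _ x => ?_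
      simp only [bse, if_neg h]
    · refine PRP.congr (PRP.C hb) fun k _ x => ?_
      simp only [bse, if_neg h]

theorem law_pr (g : ℕ) {f a₁ b₁ a₂ b₂ : FP ι} {a b : FF ι} (hf : PRP f) (ha : PRF a) (hb : PRF b)
    (ha₁ : PRP a₁) (hb₁ : PRP b₁) (ha₂ : PRP a₂) (hb₂ : PRP b₂) :
    PRP (fun k _ x => (law g (f k x) (a k x) (b k x) (a₁ k x, b₁ k x) (a₂ k x, b₂ k x)).1) ∧
      PRP (fun k _ x => (law g (f k x) (a k x) (b k x) (a₁ k x, b₁ k x)
        (a₂ k x, b₂ k x)).2) := by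
  obtain ⟨h1, h2⟩ := cmp_pr (4 * g + 8) hf ha₁ hb₁ ha₂ hb₂
  obtain ⟨h3, h4⟩ := bse_pr g ha hb
  obtain ⟨h5, h6⟩ := cmp_pr (4 * g + 8) hf h1 h2 h3 (PRP.neg h4)
  exact rdn_pr g (2 * g + 2) hf h5 h6

private theorem coeff_ofFn {k : Type} [Field k] {n : ℕ} (F : Fin n → k) (j : ℕ) :
    (∑ i : Fin n, Polynomial.C (F i) * Polynomial.X ^ (i : ℕ)).coeff j =
      if h : j < n then F ⟨j, h⟩ else 0 := by
  rw [finsetSum_coeff]
  by_cases h : j < n
  · rw [dif_pos h, Finset.sum_eq_single (⟨j, h⟩ : Fin n)]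
    · simp
    · intro i _ hi
      rw [coeff_C_mul, coeff_X_pow, if_neg, mul_zero]
      intro h1
      exact hi (Fin.ext h1.symm)
    · intro h1
      exact absurd (Finset.mem_univ _) h1
  · rw [dif_neg h]
    refine Finset.sum_eq_zero fun i _ => ?_
    rw [coeff_C_mul, coeff_X_pow, if_neg, mul_zero]
    intro h1
    exact h (h1 ▸ i.2)

private theorem uof_pr (g : ℕ) {x : Fin (2 * g + 3) → FF ι} (hx : ∀ i, PRF (x i)) :
    PRP (fun k _ z => (uof g fun i => x i k z).1) ∧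
      PRP (fun k _ z => (uof g fun i => x i k z).2) := by
  constructor
  · exact PRP.ofFn (F := fun (i : Fin (g + 1)) k _ z =>
      x ⟨i + 1, by omega⟩ k z / x ⟨0, by omega⟩ k z) fun i => PRF.div (hx _) (hx _)
  · exact PRP.ofFn (F := fun (i : Fin (g + 1)) k _ z =>
      x ⟨i + (g + 2), by omega⟩ k z / x ⟨0, by omega⟩ k z) fun i => PRF.div (hx _) (hx _)

private theorem pol_pr (g : ℕ) {c : Fin (2 * g + 5) → FF ι} (hc : ∀ i, PRF (c i)) :
    PRP (fun k _ z => pol g fun i => c i k z) :=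
  PRP.ofFn (F := fun (i : Fin (2 * g + 3)) k _ z => c ⟨i + 2, by omega⟩ k z) fun i => hc _

theorem crd_law_pr (g : ℕ) (i : Fin (2 * g + 3)) :
    PRF (ι := Fin (2 * g + 3) ⊕ Fin (2 * g + 3) ⊕ Fin (2 * g + 5)) (fun k _ z =>
      crd g (law g (pol g fun j => z (.inr (.inr j))) (z (.inr (.inr 0))) (z (.inr (.inr 1)))
        (uof g fun j => z (.inl j)) (uof g fun j => z (.inr (.inl j)))) i) := by
  have h1 := pol_pr (ι := Fin (2 * g + 3) ⊕ Fin (2 * g + 3) ⊕ Fin (2 * g + 5)) g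
    (c := fun j k _ z => z (.inr (.inr j))) fun j => PRF.var _
  obtain ⟨h2, h3⟩ := uof_pr (ι := Fin (2 * g + 3) ⊕ Fin (2 * g + 3) ⊕ Fin (2 * g + 5)) g
    (x := fun j k _ z => z (.inl j)) fun j => PRF.var _
  obtain ⟨h4, h5⟩ := uof_pr (ι := Fin (2 * g + 3) ⊕ Fin (2 * g + 3) ⊕ Fin (2 * g + 5)) g
    (x := fun j k _ z => z (.inr (.inl j))) fun j => PRF.var _
  obtain ⟨h6, h7⟩ := law_pr g h1 (PRF.var (.inr (.inr 0))) (PRF.var (.inr (.inr 1))) h2 h3 h4 h5
  by_cases hi : (i : ℕ) = 0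
  · refine PRF.congr PRF.one fun k _ z => ?_
    simp only [crd, if_pos hi]
  · by_cases hi' : (i : ℕ) ≤ g + 1
    · refine PRF.congr (h6.2 ((i : ℕ) - 1)) fun k _ z => ?_
      simp only [crd, if_neg hi, if_pos hi']
    · refine PRF.congr (h7.2 ((i : ℕ) - (g + 2))) fun k _ z => ?_
      simp only [crd, if_neg hi, if_neg hi']

theorem uof_crd {k : Type} [Field k] (g : ℕ) {w : k[X] × k[X]} (hu : w.1.natDegree ≤ g)
    (hv : w.2.natDegree ≤ g) {z : k} (hz : z ≠ 0) {x : Fin (2 * g + 3) → k}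
    (hx : ∀ i, x i = z * crd g w i) : uof g x = w := by
  have h0 : x ⟨0, by omega⟩ = z := by
    rw [hx]
    simp [crd]
  refine Prod.ext ?_ ?_
  · ext j
    rw [uof, coeff_ofFn (fun i : Fin (g + 1) => x ⟨i + 1, by omega⟩ / x ⟨0, by omega⟩) j]
    by_cases h : j < g + 1
    · rw [dif_pos h, h0, hx]
      have h1 : ¬ (j + 1 = 0) := by omega
      have h2 : j + 1 ≤ g + 1 := by omega
      simp only [crd, if_neg h1, if_pos h2, Nat.add_sub_cancel]
      field_simp
    · rw [dif_neg h]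
      exact (coeff_eq_zero_of_natDegree_lt (by omega)).symm
  · ext j
    rw [uof, coeff_ofFn (fun i : Fin (g + 1) => x ⟨i + (g + 2), by omega⟩ / x ⟨0, by omega⟩) j]
    by_cases h : j < g + 1
    · rw [dif_pos h, h0, hx]
      have h1 : ¬ (j + (g + 2) = 0) := by omega
      have h2 : ¬ (j + (g + 2) ≤ g + 1) := by omega
      simp only [crd, if_neg h1, if_neg h2, Nat.add_sub_cancel]
      field_simp
    · rw [dif_neg h]
      exact (coeff_eq_zero_of_natDegree_lt (by omega)).symm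

theorem crd_uof {k : Type} [Field k] (g : ℕ) {x : Fin (2 * g + 3) → k}
    (hx : x ⟨0, by omega⟩ = 1) : crd g (uof g x) = x := by
  funext i
  by_cases hi : (i : ℕ) = 0
  · simp only [crd, if_pos hi]
    rw [← hx]
    congr 1
    exact Fin.ext hi.symm
  · by_cases hi' : (i : ℕ) ≤ g + 1
    · simp only [crd, if_neg hi, if_pos hi']
      rw [uof, coeff_ofFn (fun i : Fin (g + 1) => x ⟨i + 1, by omega⟩ / x ⟨0, by omega⟩) _,
        dif_pos (by omega), hx, div_one]
      congr 1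
      exact Fin.ext (by simp only; omega)
    · simp only [crd, if_neg hi, if_neg hi']
      have h3 := i.2
      rw [uof, coeff_ofFn (fun i : Fin (g + 1) => x ⟨i + (g + 2), by omega⟩ / x ⟨0, by omega⟩) _,
        dif_pos (by omega), hx, div_one]
      congr 1
      exact Fin.ext (by simp only; omega)

private theorem degLt_prd {u v : FP ι} (hu : PRP u) (hv : PRP v) :
    PRD (fun k _ x => (v k x).degree < (u k x).degree) := by
  obtain ⟨D, hD⟩ := hv.1
  refine PRD.congr (PRD.and (PRD.not (PRD.zeroP hu)) (PRD.or (PRD.zeroP hv)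
    (PRD.any (Finset.range (D + 1)) (P := fun e k _ x => (v k x).natDegree ≤ e ∧
      ¬ (u k x).natDegree ≤ e) fun e _ => PRD.and (PRD.degLe hv e) (PRD.not (PRD.degLe hu e)))))
    fun k _ x => ?_
  constructor
  · intro h
    have h1 : u k x ≠ 0 := by
      intro h2
      rw [h2, degree_zero] at h
      exact not_lt_bot h
    refine ⟨h1, ?_⟩
    by_cases h3 : v k x = 0
    · exact Or.inl h3
    · refine Or.inr ⟨(v k x).natDegree, Finset.mem_range.2 (Nat.lt_succ_of_le (hD k x)), le_rfl, ?_⟩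
      rw [not_le]
      exact natDegree_lt_natDegree h3 h
  · rintro ⟨h1, h2 | ⟨e, -, h3, h4⟩⟩
    · rw [h2, degree_zero]
      exact bot_lt_iff_ne_bot.2 (mt degree_eq_bot.1 h1)
    · exact degree_lt_degree (lt_of_le_of_lt h3 (not_le.1 h4))

private theorem degMod_prd {u : FP ι} (hu : PRP u) (r : ℕ) :
    PRD (fun k _ x => (u k x).natDegree % 2 = r) := by
  obtain ⟨D, hD⟩ := hu.1
  refine PRD.congr (PRD.any ((Finset.range (D + 1)).filter fun e => e % 2 = r)
    (P := fun e k _ x => (u k x).natDegree = e) fun e _ => PRD.degEq hu e) fun k _ x => ?_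
  constructor
  · intro h
    exact ⟨(u k x).natDegree, Finset.mem_filter.2
      ⟨Finset.mem_range.2 (Nat.lt_succ_of_le (hD k x)), h⟩, rfl⟩
  · rintro ⟨e, he, h⟩
    rw [h]
    exact (Finset.mem_filter.1 he).2

theorem canS_prd (g : ℕ) :
    PRD (ι := Fin (2 * g + 3) ⊕ Fin (2 * g + 5)) (fun k _ z =>
      SP (pol g fun j => z (.inr j)) (uof g fun j => z (.inl j)).1 (uof g fun j => z (.inl j)).2 ∧
      (uof g fun j => z (.inl j)).2.degree < (uof g fun j => z (.inl j)).1.degree ∧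
      (uof g fun j => z (.inl j)).1.natDegree ≤ g ∧
      (uof g fun j => z (.inl j)).1.natDegree % 2 = g % 2) := by
  have h1 := pol_pr (ι := Fin (2 * g + 3) ⊕ Fin (2 * g + 5)) g
    (c := fun j k _ z => z (.inr j)) fun j => PRF.var _
  obtain ⟨h2, h3⟩ := uof_pr (ι := Fin (2 * g + 3) ⊕ Fin (2 * g + 5)) g
    (x := fun j k _ z => z (.inl j)) fun j => PRF.var _
  exact PRD.and (PRD.and (PRD.monic h2) (PRD.dvd h2 (PRP.sub h1 (PRP.pow h3 2))))
    (PRD.and (degLt_prd h2 h3) (PRD.and (PRD.degLe h2 g) (degMod_prd h2 (g % 2))))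

end Pool.Agent.HyE
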