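import Pool.Agent.HyE.Par
import Pool.Agent.HyE.Cant
import Pool.Agent.HyE.CantPR

/-!
# Package HyE-Fam: the groups of even classes are a family of algebraic groups

Complete proof. `G v = Ev (par g v).f` (a subgroup of the class group, commutative). Let
`E = idl f (bse g a b)` (`bse_spec`, with `Par.gn_eq`, `Par.valid`). For `c ∈ Ev f` let `wd c` be the
unique reduced pair of `can_ex` (`w ∈ CanS f`, `cl (idl w) = c * cl E`).

* `m v = (par g v).p`, `c k v = (par g v).v k.succ` (`par_v_def`);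
* `pt v c i = (crd g (wd c) i).val` (`ZMod.val_lt`);
* `mem`: the codes are `∑ t i * m ^ i` with numbers `t i < m` such that `t 0 = 1` and the pair `uof t`
  is in `CanS f` (`crd_uof`, `uof_crd`, `can_mem`): bounded quantifiers over the `t i`
  (`Delta0.bexVec`), `canS_prd` with `PRc.prd_delta'`;
* `sep`: by `uof_crd` proportional coordinates give the same pair, so the same class;
* `T`, `F`: from `PRc.law_of_prf` for `crd_law_pr g`; `law`: by `uof_crd` the two pairs are
  `wd g`, `wd h`, by `law_spec` the new pair `w` is in `CanS f` and has the class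
  `(g E)(h E) E⁻¹ = (g h) E`, so it is `wd (g h)` (`can_ex`), and `crd` is as required
  (`ZMod.natCast_zmod_val`).
-/

set_option autoImplicit false

noncomputable section

namespace Pool.Agent.HyE

open Polynomial Pool.Agent.PRc Pool.Agent.Grz Pool.Agent.ECD
open scoped Classical

/-- the base pair of the parameters -/
private def bp_Fam {g : ℕ} (x : Par g) : (ZMod x.p)[X] × (ZMod x.p)[X] := bse g (x.c 0) (x.c 1)

private theorem bp_spec_Fam {g : ℕ} (x : Par g) :
    SP x.f (bp_Fam x).1 (bp_Fam x).2 ∧ (bp_Fam x).2.degree < (bp_Fam x).1.degree ∧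
      (bp_Fam x).1.natDegree ≤ 1 ∧ (bp_Fam x).1.natDegree % 2 = g % 2 := by
  have hab : gn x.f % 2 = 1 → (x.c 1) ^ 2 = x.f.eval (x.c 0) := by
    rw [x.gn_eq]
    exact x.valid.choose_spec.2.2
  have h := bse_spec hab
  rw [x.gn_eq] at h
  exact h

private def be_Fam {g : ℕ} (x : Par g) : Ideal (Rg x.f) := idl x.f (bp_Fam x).1 (bp_Fam x).2

private theorem be_ne_Fam {g : ℕ} (x : Par g) : be_Fam x ≠ ⊥ := idl_ne_bot (bp_spec_Fam x).1

private theorem be_par_Fam {g : ℕ} (x : Par g) :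
    (nrm (be_Fam x)).natDegree % 2 = gn x.f % 2 := by
  unfold be_Fam
  rw [nrm_idl (show Inert x.f from x.valid.choose_spec.1) (bp_spec_Fam x).1, x.gn_eq]
  exact (bp_spec_Fam x).2.2.2

/-- the reduced pair of a class -/
private def wd_Fam {g : ℕ} (x : Par g) (c : Ev x.f) : (ZMod x.p)[X] × (ZMod x.p)[X] :=
  (can_ex (be_ne_Fam x) (be_par_Fam x) c.2).choose

private theorem wd_spec_Fam {g : ℕ} (x : Par g) (c : Ev x.f) :
    wd_Fam x c ∈ CanS x.f ∧
      cl (idl x.f (wd_Fam x c).1 (wd_Fam x c).2) = (c : ClassGroup (Rg x.f)) * cl (be_Fam x) :=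
  (can_ex (be_ne_Fam x) (be_par_Fam x) c.2).choose_spec.1

private theorem wd_uniq_Fam {g : ℕ} (x : Par g) (c : Ev x.f) {w : (ZMod x.p)[X] × (ZMod x.p)[X]}
    (hw : w ∈ CanS x.f)
    (h : cl (idl x.f w.1 w.2) = (c : ClassGroup (Rg x.f)) * cl (be_Fam x)) : w = wd_Fam x c :=
  (can_ex (be_ne_Fam x) (be_par_Fam x) c.2).unique ⟨hw, h⟩ (wd_spec_Fam x c)

private theorem can_deg_Fam {g : ℕ} (x : Par g) {w : (ZMod x.p)[X] × (ZMod x.p)[X]}
    (hw : w ∈ CanS x.f) : w.1.natDegree ≤ g ∧ w.2.natDegree ≤ g := by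
  obtain ⟨_, h2, h3, _⟩ := hw
  rw [x.gn_eq] at h3
  exact ⟨h3, (natDegree_le_natDegree h2.le).trans h3⟩

private theorem uof_wd_Fam {g : ℕ} (x : Par g) (c : Ev x.f) {z : ZMod x.p} (hz : z ≠ 0)
    {t : Fin (2 * g + 3) → ZMod x.p} (ht : ∀ i, t i = z * crd g (wd_Fam x c) i) :
    uof g t = wd_Fam x c := by
  obtain ⟨h1, h2⟩ := can_deg_Fam x (wd_spec_Fam x c).1
  exact uof_crd g h1 h2 hz ht

private theorem wd_inj_Fam {g : ℕ} (x : Par g) {c d : Ev x.f} (h : wd_Fam x c = wd_Fam x d) :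
    c = d := by
  have h1 := (wd_spec_Fam x c).2
  rw [h, (wd_spec_Fam x d).2] at h1
  exact Subtype.ext (mul_right_cancel h1).symm

/-- the coordinates of a class -/
private def pt_Fam {g : ℕ} (x : Par g) (c : Ev x.f) (i : Fin (2 * g + 3)) : ℕ :=
  (crd g (wd_Fam x c) i).val

private theorem pt_cast_Fam {g : ℕ} (x : Par g) (c : Ev x.f) (i : Fin (2 * g + 3)) :
    (pt_Fam x c i : ZMod x.p) = crd g (wd_Fam x c) i := ZMod.natCast_zmod_val _

/-- the relation of the reduced pairs in coordinates -/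
private def R_Fam {g : ℕ} (x : Par g) (t : Fin (2 * g + 3) → ℕ) : Prop :=
  SP x.f (uof g fun j => (t j : ZMod x.p)).1 (uof g fun j => (t j : ZMod x.p)).2 ∧
    (uof g fun j => (t j : ZMod x.p)).2.degree < (uof g fun j => (t j : ZMod x.p)).1.degree ∧
    (uof g fun j => (t j : ZMod x.p)).1.natDegree ≤ g ∧
    (uof g fun j => (t j : ZMod x.p)).1.natDegree % 2 = g % 2

private theorem R_iff_Fam {g : ℕ} (x : Par g) (t : Fin (2 * g + 3) → ℕ) :
    R_Fam x t ↔ (uof g fun j => (t j : ZMod x.p)) ∈ CanS x.f := by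
  unfold R_Fam CanS
  rw [Set.mem_ofPred_eq, x.gn_eq]

private theorem mem_iff_Fam {g : ℕ} (x : Par g) (n : ℕ) :
    (∃ c : Ev x.f, ∑ i, pt_Fam x c i * x.p ^ (i : ℕ) = n) ↔
      ∃ t : Fin (2 * g + 3) → ℕ, (∀ i, t i ≤ x.p - 1) ∧ (t ⟨0, by omega⟩ = 1 ∧
        ∑ i, t i * x.p ^ (i : ℕ) = n ∧ R_Fam x t) := by
  have hp : x.p.Prime := x.valid.choose
  constructor
  · rintro ⟨c, hc⟩
    have hu : (uof g fun j => (pt_Fam x c j : ZMod x.p)) = wd_Fam x c :=
      uof_wd_Fam x c one_ne_zero fun i => by rw [pt_cast_Fam, one_mul]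
    refine ⟨pt_Fam x c, fun i => ?_, ?_, hc, ?_⟩
    · have : pt_Fam x c i < x.p := ZMod.val_lt _
      omega
    · have h1 : crd g (wd_Fam x c) ⟨0, by omega⟩ = 1 := by simp [crd]
      have : Fact (1 < x.p) := ⟨hp.one_lt⟩
      unfold pt_Fam
      rw [h1, ZMod.val_one]
    · rw [R_iff_Fam, hu]
      exact (wd_spec_Fam x c).1
  · rintro ⟨t, ht, ht0, hs, hR⟩
    rw [R_iff_Fam] at hR
    set w := uof g fun j => (t j : ZMod x.p) with hw
    have hpos := hp.pos
    have hc : cl (idl x.f w.1 w.2) * (cl (be_Fam x))⁻¹ ∈ Ev x.f :=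
      can_mem (be_ne_Fam x) (be_par_Fam x) hR
    have e1 : w = wd_Fam x ⟨_, hc⟩ := wd_uniq_Fam x ⟨_, hc⟩ hR (by
      simp only [inv_mul_cancel_right])
    have e2 : crd g w = fun j => (t j : ZMod x.p) := crd_uof g (by
      show ((t ⟨0, by omega⟩ : ℕ) : ZMod x.p) = 1
      rw [ht0, Nat.cast_one])
    refine ⟨⟨_, hc⟩, ?_⟩
    rw [← hs]
    refine Finset.sum_congr rfl fun i _ => ?_
    unfold pt_Fam
    rw [← e1, e2]
    simp only
    rw [ZMod.val_natCast_of_lt]
    have := ht i
    omega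

private theorem par_comp_Fam (g : ℕ) {m : ℕ} {v : Fin (2 * g + 6) → (Fin m → ℕ) → ℕ}
    (hv : ∀ i, DFun m (v i)) (i : Fin (2 * g + 6)) :
    DFun m (fun w => (par g (fun j => v j w)).v i) :=
  (par_v_def g i).comp hv

private theorem R_def_Fam (g : ℕ) {m : ℕ} {t : Fin (2 * g + 3) → (Fin m → ℕ) → ℕ}
    {v : Fin (2 * g + 6) → (Fin m → ℕ) → ℕ} (ht : ∀ i, DFun m (t i)) (hv : ∀ i, DFun m (v i)) :
    Delta0 m (fun w => R_Fam (par g (fun j => v j w)) (fun i => t i w)) := by
  have h := prd_delta' (n := m) (canS_prd g) (p := fun w => (par g (fun j => v j w)).v 0)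
    (a := fun i w => Sum.elim (fun j => t j w)
      (fun j : Fin (2 * g + 5) => (par g (fun j => v j w)).v j.succ) i)
    (par_comp_Fam g hv 0) (fun i => by
      cases i with
      | inl j => exact ht j
      | inr j => exact par_comp_Fam g hv j.succ)
  refine h.of_iff fun w => ?_
  constructor
  · intro hR
    exact ⟨(par g (fun j => v j w)).valid.choose, hR⟩
  · rintro ⟨_, hR⟩
    exact hR

private theorem mem_def_Fam (g : ℕ) : Delta0 (2 * g + 6 + 1) (fun w =>
    ∃ c : Ev (par g (fun k => w k.succ)).f, ∑ i, pt_Fam (par g (fun k => w k.succ)) c i *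
      (par g (fun k => w k.succ)).p ^ (i : ℕ) = w 0) := by
  have hb : DFun (2 * g + 6 + 1) (fun w => (par g (fun k => w k.succ)).p - 1) :=
    (par_comp_Fam g (fun i => DFun.proj i.succ) 0).sub (DFun.const 1)
  have h := PTr.Delta0.bexVec (D := 2 * g + 3) hb
    (P := fun t w => t ⟨0, by omega⟩ = 1 ∧
        ∑ i, t i * (par g (fun k => w k.succ)).p ^ (i : ℕ) = w 0 ∧
        R_Fam (par g (fun k => w k.succ)) t) (by
    intro m x v hx hv
    have hp : DFun m (fun w => (par g (fun k => v k.succ w)).p) :=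
      par_comp_Fam g (fun i => hv i.succ) 0
    refine Delta0.and (Delta0.eqFun (hx _) (DFun.const 1)) (Delta0.and (Delta0.eqFun
      (PTr.DFun.finSum _ fun i => (hx i).mul (PTr.DFun.powConst hp _)) (hv 0)) ?_)
    exact R_def_Fam g hx (fun i => hv i.succ))
  refine h.of_iff fun w => ?_
  exact mem_iff_Fam _ _

private theorem mul_mul_mul_comm' {G : Type} [CommGroup G] (a b e : G) :
    a * e * (b * e) = a * b * e * e := by
  rw [mul_mul_mul_comm, mul_assoc (a * b)]

theorem hfam (g : ℕ) : ∃ (τ : ℕ) (Φ : AlgFam (2 * g + 6) (2 * g + 3) (2 * g + 5) τ), ∀ v,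
    (∀ a b : Φ.G v, a * b = b * a) ∧ Nat.card (Φ.G v) = Nat.card (CanS (par g v).f) := by
  obtain ⟨τ, T, F, hF⟩ := law_of_prf (d := 2 * g + 3) (e := 2 * g + 5)
    (G := fun i k _ z =>
      crd g (law g (pol g fun j => z (.inr (.inr j))) (z (.inr (.inr 0))) (z (.inr (.inr 1)))
        (uof g fun j => z (.inl j)) (uof g fun j => z (.inr (.inl j)))) i)
    (fun i => crd_law_pr g i)
  refine ⟨τ, {
    G := fun v => Ev (par g v).f
    grp := fun v => inferInstance
    m := fun v => (par g v).p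
    hm := par_v_def g 0
    mpos := fun v => (par g v).valid.choose.pos
    c := fun k v => (par g v).v k.succ
    hc := fun k => par_v_def g k.succ
    pt := fun v c i => pt_Fam (par g v) c i
    pt_lt := fun v c i => ZMod.val_lt _
    mem := mem_def_Fam g
    sep := ?_
    T := T
    F := F
    law := ?_ }, fun v => ⟨fun a b => mul_comm (G := Ev (par g v).f) a b,
      card_ev (be_ne_Fam (par g v)) (be_par_Fam (par g v))⟩⟩
  · intro v a b u h
    have h1 : (uof g fun i => (pt_Fam (par g v) b i : ZMod (par g v).p)) = wd_Fam (par g v) b :=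
      uof_wd_Fam _ b one_ne_zero fun i => by rw [pt_cast_Fam, one_mul]
    have h2 : (uof g fun i => (pt_Fam (par g v) b i : ZMod (par g v).p)) = wd_Fam (par g v) a :=
      uof_wd_Fam _ a u.ne_zero fun i => by
        rw [← pt_cast_Fam]
        exact h i
    exact wd_inj_Fam _ (h2.symm.trans h1)
  · intro v a b x y u w hx hy
    obtain ⟨z, hz⟩ := hF (ZMod (par g v).p) (par g v).c x y
    refine ⟨z, fun i => ?_⟩
    have h1 : uof g x = wd_Fam (par g v) a := uof_wd_Fam _ a u.ne_zero fun i => by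
      rw [← pt_cast_Fam]
      exact hx i
    have h2 : uof g y = wd_Fam (par g v) b := uof_wd_Fam _ b w.ne_zero fun i => by
      rw [← pt_cast_Fam]
      exact hy i
    have hab : gn (par g v).f % 2 = 1 → ((par g v).c 1) ^ 2 = (par g v).f.eval ((par g v).c 0) := by
      rw [(par g v).gn_eq]
      exact (par g v).valid.choose_spec.2.2
    have hl := law_spec hab (wd_spec_Fam (par g v) a).1 (wd_spec_Fam (par g v) b).1
    rw [(par g v).gn_eq] at hl
    have h3 : law g (par g v).f ((par g v).c 0) ((par g v).c 1) (wd_Fam (par g v) a)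
        (wd_Fam (par g v) b) = wd_Fam (par g v) (a * b) := by
      refine wd_uniq_Fam _ (a * b) hl.1 ?_
      rw [hl.2, (wd_spec_Fam (par g v) a).2, (wd_spec_Fam (par g v) b).2]
      show _ * (cl (be_Fam (par g v)))⁻¹ = ((a : ClassGroup (Rg (par g v).f)) *
        (b : ClassGroup (Rg (par g v).f))) * cl (be_Fam (par g v))
      rw [mul_inv_eq_iff_eq_mul]
      exact mul_mul_mul_comm' _ _ _
    have h4 := hz i
    simp only [Sum.elim_inl, Sum.elim_inr] at h4
    refine h4.trans ?_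
    congr 1
    have h5 : (pol g fun j => (par g v).c j) = (par g v).f := rfl
    rw [h5]
    have h6 : (uof g fun j => x j) = wd_Fam (par g v) a := h1
    have h7 : (uof g fun j => y j) = wd_Fam (par g v) b := h2
    rw [h6, h7, h3]
    exact (pt_cast_Fam _ _ _).symm

end Pool.Agent.HyE
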