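import Pool.Agent.HyE.Grp
import Pool.Agent.PRc.Gcd

/-!
# Cantor's algorithm and coordinates: definitions
-/

set_option autoImplicit false

noncomputable section

namespace Pool.Agent.HyE

open Polynomial Pool.Agent.PRc
open scoped Classical

variable {k : Type} [Field k]

/-- Cantor's composition of two pairs; `N` bounds the number of the steps of the Euclidean
algorithm. With `d₁ = gcd (u₁, u₂)`, `d = gcd (d₁, v₁ + v₂) = s₁ u₁ + s₂ u₂ + s₃ (v₁ + v₂)` monic it is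
`u = u₁ u₂ / d²`, `v = (s₁ u₁ v₂ + s₂ u₂ v₁ + s₃ (f + v₁ v₂)) / d mod u`. -/
def cmp (N : ℕ) (f : k[X]) (w₁ w₂ : k[X] × k[X]) : k[X] × k[X] :=
  (w₁.1 * w₂.1 / (C (xg N (xg N w₁.1 w₂.1).1 (w₁.2 + w₂.2)).1.leadingCoeff⁻¹ *
      (xg N (xg N w₁.1 w₂.1).1 (w₁.2 + w₂.2)).1) ^ 2,
    ((C (xg N (xg N w₁.1 w₂.1).1 (w₁.2 + w₂.2)).1.leadingCoeff⁻¹ *
        ((xg N (xg N w₁.1 w₂.1).1 (w₁.2 + w₂.2)).2.1 * (xg N w₁.1 w₂.1).2.1 * w₁.1 * w₂.2 +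
        (xg N (xg N w₁.1 w₂.1).1 (w₁.2 + w₂.2)).2.1 * (xg N w₁.1 w₂.1).2.2 * w₂.1 * w₁.2 +
        (xg N (xg N w₁.1 w₂.1).1 (w₁.2 + w₂.2)).2.2 * (f + w₁.2 * w₂.2))) /
      (C (xg N (xg N w₁.1 w₂.1).1 (w₁.2 + w₂.2)).1.leadingCoeff⁻¹ *
        (xg N (xg N w₁.1 w₂.1).1 (w₁.2 + w₂.2)).1)) %
      (w₁.1 * w₂.1 / (C (xg N (xg N w₁.1 w₂.1).1 (w₁.2 + w₂.2)).1.leadingCoeff⁻¹ *
        (xg N (xg N w₁.1 w₂.1).1 (w₁.2 + w₂.2)).1) ^ 2))

/-- one step of the reduction -/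
def rds (f : k[X]) (w : k[X] × k[X]) : k[X] × k[X] :=
  (C ((f - w.2 ^ 2) / w.1).leadingCoeff⁻¹ * ((f - w.2 ^ 2) / w.1),
    (-w.2) % (C ((f - w.2 ^ 2) / w.1).leadingCoeff⁻¹ * ((f - w.2 ^ 2) / w.1)))

/-- at most `n` steps of the reduction, until the degree is `≤ g + 1` -/
def rdn (f : k[X]) (g : ℕ) : ℕ → k[X] × k[X] → k[X] × k[X]
  | 0, w => w
  | n + 1, w => if w.1.natDegree ≤ g + 1 then w else rdn f g n (rds f w)

/-- the base pair: `(1, 0)` if `g` is even, `(x - a, b)` if `g` is odd -/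
def bse (g : ℕ) (a b : k) : k[X] × k[X] := if g % 2 = 0 then (1, 0) else (X - C a, C b)

/-- the law on the reduced pairs -/
def law (g : ℕ) (f : k[X]) (a b : k) (w₁ w₂ : k[X] × k[X]) : k[X] × k[X] :=
  rdn f g (2 * g + 2) (cmp (4 * g + 8) f (cmp (4 * g + 8) f w₁ w₂)
    ((bse g a b).1, -(bse g a b).2))

/-- the polynomial with the coefficients `c (i + 2)` -/
def pol (g : ℕ) (c : Fin (2 * g + 5) → k) : k[X] :=
  ∑ i : Fin (2 * g + 3), C (c ⟨i + 2, by omega⟩) * X ^ (i : ℕ)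

/-- the coordinates of a pair: `1`, the coefficients of `u`, the coefficients of `v` -/
def crd (g : ℕ) (w : k[X] × k[X]) : Fin (2 * g + 3) → k := fun i =>
  if (i : ℕ) = 0 then 1 else if (i : ℕ) ≤ g + 1 then w.1.coeff (i - 1) else w.2.coeff (i - (g + 2))

/-- the pair with the given homogeneous coordinates -/
def uof (g : ℕ) (x : Fin (2 * g + 3) → k) : k[X] × k[X] :=
  (∑ i : Fin (g + 1), C (x ⟨i + 1, by omega⟩ / x ⟨0, by omega⟩) * X ^ (i : ℕ),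
    ∑ i : Fin (g + 1), C (x ⟨i + (g + 2), by omega⟩ / x ⟨0, by omega⟩) * X ^ (i : ℕ))

end Pool.Agent.HyE
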