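import Pool.Agent.HyE.Hnf

/-!
# Package HyE-Comp: Gauss composition

Complete proofs. `comp_dvd`: `f + v₁ v₂ = (f - v₁²) + v₁ (v₁ + v₂)` is divisible by `d`.

`comp_idl`: write `u₁ = d a₁`, `u₂ = d a₂`, so `u = a₁ a₂`.
(1) `d (v - v₂) = s₂ u₂ (v₁ - v₂) + s₃ (f - v₂²)` (replace `d` in `d v₂`), so `u₂ ∣ d (v - v₂)`, so
`a₂ ∣ v - v₂`; in the same way `a₁ ∣ v - v₁`.
(2) `z₀ = d (y - v) = s₁ u₁ (y - v₂) + s₂ u₂ (y - v₁) - s₃ (y - v₁)(y - v₂) + ...`: precisely, in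
`I₁ I₂` there are `u₁ (y - v₂)`, `u₂ (y - v₁)` and `(v₁ + v₂) y - (f + v₁ v₂) = -(y - v₁)(y - v₂)`,
and `z₀` is the combination with `s₁`, `s₂`, `s₃`. So `z₀ z₀' = d² (v² - f)` (up to sign) is in
`I₁ I₁' I₂ I₂' = (u₁ u₂)`, so `u₁ u₂ = d² u ∣ d² (f - v²)`, so `u ∣ f - v²`: `SP f u v`
(`u` is monic as `d² u = u₁ u₂`).
(3) `I₁ I₂ ⊆ (d) J`, `J = (u, y - v)`, by `mem_d_idl` for the four generators:
`u₁ u₂ = d² u`; `u₁ (y - v₂)`: `d ∣ u₁` and `d u = d a₁ a₂ ∣ u₁ (v - v₂)`, by (1); `u₂ (y - v₁)` the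
same; `(y - v₁)(y - v₂) = (f + v₁ v₂) - (v₁ + v₂) y`: `d ∣ v₁ + v₂` and
`d ((f + v₁ v₂) - (v₁ + v₂) v) = s₁ u₁ (f - v₂²) + s₂ u₂ (f - v₁²)` is divisible by `u₁ u₂ = d (d u)`.
(4) Equality: let `I = I₁ I₂`, `M = (d) J`, both with `I I' = (u₁ u₂) = (d² u) = M M'` (`idl_mul_cj`,
`cjI_mul`). From `I ≤ M`: `M (I I') = I (M I') ≤ I (M M')`, i.e. `M (n) ≤ I (n)` with `n = rl (u₁ u₂)`
not `0`, so `M ≤ I` (cancel the principal ideal: `Ideal.span_singleton_mul_le_span_singleton_mul` or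
elementwise in the domain `Rg f`, `isDomain hf`).
-/

set_option autoImplicit false

noncomputable section

namespace Pool.Agent.HyE

open Polynomial
open scoped Classical

variable {k : Type} [Field k] {f : k[X]}

theorem comp_dvd {u₁ v₁ u₂ v₂ d s₁ s₂ s₃ : k[X]} (h₁ : SP f u₁ v₁) (h₂ : SP f u₂ v₂)
    (hd₁ : d ∣ u₁) (hd₂ : d ∣ u₂) (hd₃ : d ∣ v₁ + v₂) :
    d ∣ s₁ * u₁ * v₂ + s₂ * u₂ * v₁ + s₃ * (f + v₁ * v₂) := by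
  obtain ⟨a, ha⟩ := hd₁
  obtain ⟨b, hb⟩ := hd₂
  obtain ⟨c, hc⟩ := hd₃
  obtain ⟨w, hw⟩ := h₁.2
  refine ⟨s₁ * a * v₂ + s₂ * b * v₁ + s₃ * (a * w + v₁ * c), ?_⟩
  linear_combination (s₁ * v₂ + s₃ * w) * ha + s₂ * v₁ * hb + s₃ * v₁ * hc + s₃ * hw

private theorem comp_aux_Comp (hf : Inert f) {u₁ v₁ u₂ v₂ d s₁ s₂ s₃ u v : k[X]} (h₁ : SP f u₁ v₁)
    (h₂ : SP f u₂ v₂) (hd : d.Monic) (hd₁ : d ∣ u₁) (hd₂ : d ∣ u₂) (hd₃ : d ∣ v₁ + v₂)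
    (hs : d = s₁ * u₁ + s₂ * u₂ + s₃ * (v₁ + v₂)) (hu : d ^ 2 * u = u₁ * u₂)
    (hv : d * v = s₁ * u₁ * v₂ + s₂ * u₂ * v₁ + s₃ * (f + v₁ * v₂)) :
    SP f u v ∧ idl f u₁ v₁ * idl f u₂ v₂ ≤ Ideal.span {rl d} * idl f u v := by
  have _i := isDomain hf
  obtain ⟨a₁, ha₁⟩ := hd₁
  obtain ⟨a₂, ha₂⟩ := hd₂
  have hd0 : d ≠ 0 := hd.ne_zero
  have hua : u = a₁ * a₂ := by
    have h0 : d ^ 2 * u = d ^ 2 * (a₁ * a₂) := by rw [hu, ha₁, ha₂]; ring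
    exact mul_left_cancel₀ (pow_ne_zero 2 hd0) h0
  obtain ⟨w₁, hw₁⟩ := h₁.2
  obtain ⟨w₂, hw₂⟩ := h₂.2
  have hum : u.Monic := by
    have h0 : (d ^ 2 * u).Monic := by rw [hu]; exact h₁.1.mul h₂.1
    exact (hd.pow 2).of_mul_monic_left h0
  -- (1)
  have k1 : a₂ ∣ v - v₂ := by
    have h0 : d * (v - v₂) = d * (a₂ * (s₂ * (v₁ - v₂) + s₃ * w₂)) := by
      linear_combination hv - v₂ * hs + s₂ * (v₁ - v₂) * ha₂ + s₃ * hw₂ + s₃ * w₂ * ha₂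
    exact ⟨_, mul_left_cancel₀ hd0 h0⟩
  have k2 : a₁ ∣ v - v₁ := by
    have h0 : d * (v - v₁) = d * (a₁ * (s₁ * (v₂ - v₁) + s₃ * w₁)) := by
      linear_combination hv - v₁ * hs + s₁ * (v₂ - v₁) * ha₁ + s₃ * hw₁ + s₃ * w₁ * ha₁
    exact ⟨_, mul_left_cancel₀ hd0 h0⟩
  obtain ⟨τ₂, hτ₂⟩ := k1
  obtain ⟨τ₁, hτ₁⟩ := k2
  have k3 : f + v₁ * v₂ - (v₁ + v₂) * v = d * u * (s₁ * w₂ + s₂ * w₁) := by
    have h0 : d * (f + v₁ * v₂ - (v₁ + v₂) * v) = d * (d * u * (s₁ * w₂ + s₂ * w₁)) := by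
      linear_combination (f + v₁ * v₂) * hs - (v₁ + v₂) * hv + s₁ * u₁ * hw₂ + s₂ * u₂ * hw₁
        - (s₁ * w₂ + s₂ * w₁) * hu
    exact mul_left_cancel₀ hd0 h0
  have hsp : SP f u v := by
    refine ⟨hum, d * (s₁ * w₂ + s₂ * w₁) - τ₁ * τ₂, ?_⟩
    linear_combination k3 - (v - v₂) * hτ₁ - a₁ * τ₁ * hτ₂ + τ₁ * τ₂ * hua
  refine ⟨hsp, ?_⟩
  · rw [Ideal.mul_le]
    intro r hr t ht
    rw [mem_idl h₁] at hr
    rw [mem_idl h₂] at ht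
    obtain ⟨c₁, hc₁⟩ := hr
    obtain ⟨c₂, hc₂⟩ := ht
    rw [mem_d_idl hf hd hsp]
    have e1 : (r * t).re = r.re * t.re + f * r.im * t.im := by
      rw [QuadraticAlgebra.re_mul]
    have e2 : (r * t).im = r.re * t.im + r.im * t.re := by
      rw [QuadraticAlgebra.im_mul]
      ring
    rw [e1, e2]
    obtain ⟨b₃, hb₃⟩ := hd₃
    constructor
    · refine ⟨a₁ * c₁ * t.im + r.im * a₂ * c₂ - r.im * t.im * b₃, ?_⟩
      linear_combination t.im * hc₁ + r.im * hc₂ + c₁ * t.im * ha₁ + r.im * c₂ * ha₂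
        - r.im * t.im * hb₃
    · refine ⟨d * c₁ * c₂ + c₁ * t.im * τ₂ + c₂ * r.im * τ₁
        + r.im * t.im * (s₁ * w₂ + s₂ * w₁), ?_⟩
      have q1 : r.re = u₁ * c₁ - r.im * v₁ := by linear_combination hc₁
      have q2 : t.re = u₂ * c₂ - t.im * v₂ := by linear_combination hc₂
      rw [q1, q2]
      linear_combination c₁ * c₂ * (-hu) + u₁ * c₁ * t.im * hτ₂ + r.im * u₂ * c₂ * hτ₁
        + r.im * t.im * k3 + c₁ * t.im * a₂ * τ₂ * ha₁ + r.im * c₂ * a₁ * τ₁ * ha₂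
        - d * c₁ * t.im * τ₂ * hua - d * c₂ * r.im * τ₁ * hua

private theorem comp_le_Comp (hf : Inert f) {I M : Ideal (Rg f)} {x : Rg f} (hx : x ≠ 0)
    (hI : I * cjI I = Ideal.span {x}) (hM : M * cjI M = Ideal.span {x}) (h : I ≤ M) :
    M ≤ I := by
  have _i := isDomain hf
  have h1 : cjI I ≤ cjI M := Ideal.map_mono h
  have h2 : Ideal.span {x} * M ≤ Ideal.span {x} * I := by
    calc Ideal.span {x} * M = I * (M * cjI I) := by rw [← hI]; ring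
      _ ≤ I * (M * cjI M) := Ideal.mul_mono_right (Ideal.mul_mono_right h1)
      _ = Ideal.span {x} * I := by rw [hM, mul_comm]
  exact (Ideal.span_singleton_mul_right_mono hx).1 h2

theorem comp_idl (hf : Inert f) {u₁ v₁ u₂ v₂ d s₁ s₂ s₃ u v : k[X]} (h₁ : SP f u₁ v₁)
    (h₂ : SP f u₂ v₂) (hd : d.Monic) (hd₁ : d ∣ u₁) (hd₂ : d ∣ u₂) (hd₃ : d ∣ v₁ + v₂)
    (hs : d = s₁ * u₁ + s₂ * u₂ + s₃ * (v₁ + v₂)) (hu : d ^ 2 * u = u₁ * u₂)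
    (hv : d * v = s₁ * u₁ * v₂ + s₂ * u₂ * v₁ + s₃ * (f + v₁ * v₂)) :
    SP f u v ∧ idl f u₁ v₁ * idl f u₂ v₂ = Ideal.span {rl d} * idl f u v := by
  obtain ⟨hsp, hle⟩ := comp_aux_Comp hf h₁ h₂ hd hd₁ hd₂ hd₃ hs hu hv
  refine ⟨hsp, le_antisymm hle ?_⟩
  have hx : (rl (u₁ * u₂) : Rg f) ≠ 0 := by
    intro h0
    exact (h₁.1.mul h₂.1).ne_zero (congrArg QuadraticAlgebra.re h0)
  refine comp_le_Comp hf hx ?_ ?_ hle
  · have e1 : (rl (u₁ * u₂) : Rg f) = rl u₁ * rl u₂ := by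
      ext1 <;> simp [QuadraticAlgebra.re_mul, QuadraticAlgebra.im_mul]
    rw [cjI_mul, cjI_idl h₁, cjI_idl h₂, e1, ← Ideal.span_singleton_mul_span_singleton,
      ← idl_mul_cj hf h₁, ← idl_mul_cj hf h₂]
    ring
  · have e1 : (rl (u₁ * u₂) : Rg f) = rl d * rl d * rl u := by
      rw [← hu]
      ext1
      · simp only [QuadraticAlgebra.re_mul]
        ring
      · simp only [QuadraticAlgebra.im_mul]
        ring
    have e2 : cj (rl d : Rg f) = rl d := by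
      ext1 <;> simp [cj]
    rw [cjI_mul, cjI_span, cjI_idl hsp, e1, e2, ← Ideal.span_singleton_mul_span_singleton,
      ← Ideal.span_singleton_mul_span_singleton, ← idl_mul_cj hf hsp]
    ring

end Pool.Agent.HyE
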