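import Pool.Agent.HyE.Idl

/-!
# Package HyE-Redu: reduction

Complete proofs. `redu_idl`: `(y + v)(u, y - v) = (u (y + v), f - v²) = (u (y + v), u w) =
(u)(y + v, w)`. `w' = c⁻¹ w`, `c` the leading coefficient of `w`, is monic and divides
`f - v² = u w`. `redu_deg`: `deg (u w) = deg (f - v²) ≤ max (2 g + 2) (2 deg v)`, `deg v < deg u`,
`g + 2 ≤ deg u`.
-/

set_option autoImplicit false

noncomputable section

namespace Pool.Agent.HyE

open Polynomial
open scoped Classical

variable {k : Type} [Field k] {f : k[X]}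

theorem redu_ne (hf : Inert f) {u v w : k[X]} (hw : u * w = f - v ^ 2) : w ≠ 0 := by
  intro h0
  have h1 : f = v * v := by
    rw [h0, mul_zero] at hw
    linear_combination -hw
  have h2 : IsUnit v := hf.sqf v ⟨1, by rw [h1]; ring⟩
  have h3 : f.natDegree = 0 := by
    rw [h1]
    exact natDegree_eq_zero_of_isUnit (h2.mul h2)
  have := hf.pos
  omega

private theorem lc_split {w : k[X]} (h0 : w ≠ 0) :
    C w.leadingCoeff * (C w.leadingCoeff⁻¹ * w) = w := by
  rw [← mul_assoc, ← C_mul, mul_inv_cancel₀ (leadingCoeff_ne_zero.2 h0), C_1, one_mul]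

private theorem span1_pair (a b c : Rg f) :
    Ideal.span {a} * Ideal.span {b, c} = Ideal.span {a * b, a * c} := by
  rw [Ideal.span_mul_span', Set.singleton_mul, Set.image_pair]

theorem redu_idl (hf : Inert f) {u v w : k[X]} (h : SP f u v) (hw : u * w = f - v ^ 2) :
    SP f (C w.leadingCoeff⁻¹ * w) (-v) ∧
      Ideal.span {(⟨v, 1⟩ : Rg f)} * idl f u v =
        Ideal.span {rl u} * idl f (C w.leadingCoeff⁻¹ * w) (-v) := by
  have h0 : w ≠ 0 := redu_ne hf hw
  have hl := lc_split h0
  have hl0 : w.leadingCoeff ≠ 0 := leadingCoeff_ne_zero.2 h0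
  refine ⟨⟨?_, ?_⟩, ?_⟩
  · rw [mul_comm]
    exact monic_mul_leadingCoeff_inv h0
  · refine ⟨C w.leadingCoeff * u, ?_⟩
    rw [neg_sq, ← hw]
    linear_combination -u * hl
  · have e1 : (⟨v, 1⟩ * ⟨-v, 1⟩ : Rg f) =
        rl (C w.leadingCoeff) * (rl u * rl (C w.leadingCoeff⁻¹ * w)) := by
      ext1
      · simp only [QuadraticAlgebra.re_mul, QuadraticAlgebra.im_mul]
        linear_combination -hw - u * hl
      · simp only [QuadraticAlgebra.re_mul, QuadraticAlgebra.im_mul]
        ring
    have e2 : (rl u * rl (C w.leadingCoeff⁻¹ * w) : Rg f) =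
        rl (C w.leadingCoeff⁻¹) * (⟨v, 1⟩ * ⟨-v, 1⟩) := by
      ext1
      · simp only [QuadraticAlgebra.re_mul, QuadraticAlgebra.im_mul]
        linear_combination (C w.leadingCoeff⁻¹) * hw
      · simp only [QuadraticAlgebra.re_mul, QuadraticAlgebra.im_mul]
        ring
    unfold idl
    rw [span1_pair, span1_pair, neg_neg]
    apply le_antisymm
    · rw [Ideal.span_le]
      rintro z (rfl | rfl)
      · rw [mul_comm (⟨v, 1⟩ : Rg f) (rl u)]
        exact Ideal.subset_span (by right; rfl)
      · rw [e1]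
        exact Ideal.mul_mem_left _ _ (Ideal.subset_span (by left; rfl))
    · rw [Ideal.span_le]
      rintro z (rfl | rfl)
      · rw [e2]
        exact Ideal.mul_mem_left _ _ (Ideal.subset_span (by right; rfl))
      · rw [mul_comm (rl u : Rg f) ⟨v, 1⟩]
        exact Ideal.subset_span (by left; rfl)

theorem redu_deg (hf : Inert f) {u v w : k[X]} (h : SP f u v) (hw : u * w = f - v ^ 2)
    (hv : v.degree < u.degree) (hu : gn f + 1 < u.natDegree) :
    (C w.leadingCoeff⁻¹ * w).natDegree < u.natDegree := by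
  have h0 : w ≠ 0 := redu_ne hf hw
  have hl0 : w.leadingCoeff ≠ 0 := leadingCoeff_ne_zero.2 h0
  rw [natDegree_C_mul (inv_ne_zero hl0)]
  have h1 : u.natDegree + w.natDegree = (f - v ^ 2).natDegree := by
    rw [← hw, natDegree_mul h.1.ne_zero h0]
  have h2 : (f - v ^ 2).natDegree ≤ max f.natDegree (v ^ 2).natDegree :=
    natDegree_sub_le _ _
  have h3 : (v ^ 2).natDegree ≤ 2 * v.natDegree := natDegree_pow_le
  have h4 : v.natDegree < u.natDegree := by
    by_cases hv0 : v = 0
    · rw [hv0, natDegree_zero]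
      omega
    · exact natDegree_lt_natDegree hv0 hv
  have h5 : f.natDegree ≤ 2 * gn f + 2 := by
    have a1 := hf.pos
    obtain ⟨m, hm⟩ := hf.even
    unfold gn
    omega
  have h6 : max f.natDegree (v ^ 2).natDegree < 2 * u.natDegree := by
    rw [max_lt_iff]
    constructor <;> omega
  omega

end Pool.Agent.HyE
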