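import Pool.Agent.HyE.Ded
import Pool.Agent.HyE.Comp
import Pool.Agent.HyE.Redu

/-!
# Package HyE-Cls: classes of ideals

Complete proofs (`ClassGroup.mk0`, `ClassGroup.mk0_eq_mk0_iff`, `ClassGroup.mk0_eq_one_iff`,
`ClassGroup.mk0_surjective`).

* `cl_span`: principal ideals. `cl_d_idl`: `cl ((d) J) = cl J`.
* `cl_neg`: `idl_mul_cj` and `cl_span`.
* `par_cl`: `(z) I = (w) J` gives `deg nm z + deg nrm I = deg nm w + deg nrm J` by `nrm_deg_mul`,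
  `nrm_span`, and `nm_even`.
* `cl_surj`: every class is the class of an ideal `(d)(u, y - v)` (`hnf`), so of `(u, y - v)`.
* `cl_redu`: `redu_idl`; `⟨v, 1⟩ ≠ 0`.
* `cl_red_ex`: by strong induction on `deg u`: if `deg u > g + 1` replace `(u, v)` by
  `(w', (-v) % w')` (`redu_deg`, `idl_congr`, `SP.congr`). The parity is preserved by `par_cl`.
-/

set_option autoImplicit false

noncomputable section

namespace Pool.Agent.HyE

open Polynomial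
open scoped Classical

variable {k : Type} [Field k] {f : k[X]} [hf : Fact (Inert f)]

/-- the class of an ideal -/
def cl (I : Ideal (Rg f)) : ClassGroup (Rg f) :=
  if h : I ≠ ⊥ then ClassGroup.mk0 ⟨I, mem_nonZeroDivisors_iff_ne_zero.2 h⟩ else 1

private theorem cl_def {I : Ideal (Rg f)} (hI : I ≠ ⊥) :
    cl I = ClassGroup.mk0 ⟨I, mem_nonZeroDivisors_iff_ne_zero.2 hI⟩ := by
  unfold cl
  rw [dif_pos hI]

private theorem mul_ne_bot {I J : Ideal (Rg f)} (hI : I ≠ ⊥) (hJ : J ≠ ⊥) : I * J ≠ ⊥ :=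
  mul_ne_zero hI hJ

omit hf in
private theorem span_ne {z : Rg f} (hz : z ≠ 0) : Ideal.span {z} ≠ (⊥ : Ideal (Rg f)) := by
  rw [Ne, Ideal.span_singleton_eq_bot]
  exact hz

omit hf in
private theorem rl_ne {u : k[X]} (hu : u.Monic) : (rl u : Rg f) ≠ 0 := by
  intro h
  exact hu.ne_zero (congrArg QuadraticAlgebra.re h)

theorem cl_mul {I J : Ideal (Rg f)} (hI : I ≠ ⊥) (hJ : J ≠ ⊥) : cl (I * J) = cl I * cl J := by
  rw [cl_def hI, cl_def hJ, cl_def (mul_ne_bot hI hJ), ← map_mul]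
  rfl

theorem cl_eq_iff {I J : Ideal (Rg f)} (hI : I ≠ ⊥) (hJ : J ≠ ⊥) :
    cl I = cl J ↔ ∃ z w : Rg f, z ≠ 0 ∧ w ≠ 0 ∧ Ideal.span {z} * I = Ideal.span {w} * J := by
  rw [cl_def hI, cl_def hJ, ClassGroup.mk0_eq_mk0_iff]
  constructor
  · rintro ⟨x, y, hx, hy, h⟩
    exact ⟨x, y, hx, hy, h⟩
  · rintro ⟨x, y, hx, hy, h⟩
    exact ⟨x, y, hx, hy, h⟩

theorem cl_eq_one_iff {I : Ideal (Rg f)} (hI : I ≠ ⊥) :
    cl I = 1 ↔ ∃ z : Rg f, I = Ideal.span {z} := by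
  rw [cl_def hI, ClassGroup.mk0_eq_one_iff]
  constructor
  · rintro ⟨z, hz⟩
    exact ⟨z, hz⟩
  · rintro ⟨z, hz⟩
    exact ⟨z, hz⟩

theorem cl_span {z : Rg f} (hz : z ≠ 0) : cl (Ideal.span {z}) = 1 :=
  (cl_eq_one_iff (span_ne hz)).2 ⟨z, rfl⟩

theorem cl_top : cl (⊤ : Ideal (Rg f)) = 1 := by
  rw [← Ideal.span_singleton_one]
  exact cl_span one_ne_zero

theorem cl_neg {u v : k[X]} (h : SP f u v) : cl (idl f u (-v)) = (cl (idl f u v))⁻¹ := by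
  have h1 := cl_mul (idl_ne_bot h) (idl_ne_bot h.neg)
  rw [idl_mul_cj hf.out h, cl_span (rl_ne h.1)] at h1
  exact eq_inv_of_mul_eq_one_right h1.symm

theorem par_cl {I J : Ideal (Rg f)} (hI : I ≠ ⊥) (hJ : J ≠ ⊥) (h : cl I = cl J) :
    (nrm I).natDegree % 2 = (nrm J).natDegree % 2 := by
  obtain ⟨z, w, hz, hw, h1⟩ := (cl_eq_iff hI hJ).1 h
  have h2 := nrm_deg_mul hf.out (span_ne hz) hI
  have h3 := nrm_deg_mul hf.out (span_ne hw) hJ
  rw [nrm_span hf.out hz] at h2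
  rw [nrm_span hf.out hw] at h3
  rw [h1, h3] at h2
  obtain ⟨a, ha⟩ := nm_even hf.out z
  obtain ⟨b, hb⟩ := nm_even hf.out w
  omega

theorem cl_surj (c : ClassGroup (Rg f)) :
    ∃ u v : k[X], SP f u v ∧ v.degree < u.degree ∧ cl (idl f u v) = c := by
  obtain ⟨⟨I, hI⟩, rfl⟩ := ClassGroup.mk0_surjective c
  have hI' : I ≠ ⊥ := mem_nonZeroDivisors_iff_ne_zero.1 hI
  obtain ⟨d, u, v, hd, h, hv, h1⟩ := hnf hf.out hI'
  refine ⟨u, v, h, hv, ?_⟩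
  have h2 := cl_mul (span_ne (rl_ne (f := f) hd)) (idl_ne_bot h)
  rw [← h1, cl_span (rl_ne hd), one_mul] at h2
  rw [← h2, cl_def hI']

theorem cl_comp {u₁ v₁ u₂ v₂ d s₁ s₂ s₃ u v : k[X]} (h₁ : SP f u₁ v₁)
    (h₂ : SP f u₂ v₂) (hd : d.Monic) (hd₁ : d ∣ u₁) (hd₂ : d ∣ u₂) (hd₃ : d ∣ v₁ + v₂)
    (hs : d = s₁ * u₁ + s₂ * u₂ + s₃ * (v₁ + v₂)) (hu : d ^ 2 * u = u₁ * u₂)
    (hv : d * v = s₁ * u₁ * v₂ + s₂ * u₂ * v₁ + s₃ * (f + v₁ * v₂)) :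
    SP f u v ∧ cl (idl f u v) = cl (idl f u₁ v₁) * cl (idl f u₂ v₂) := by
  obtain ⟨h3, h4⟩ := comp_idl hf.out h₁ h₂ hd hd₁ hd₂ hd₃ hs hu hv
  refine ⟨h3, ?_⟩
  rw [← cl_mul (idl_ne_bot h₁) (idl_ne_bot h₂), h4, cl_mul (span_ne (rl_ne hd)) (idl_ne_bot h3),
    cl_span (rl_ne hd), one_mul]

theorem cl_redu {u v w : k[X]} (h : SP f u v) (hw : u * w = f - v ^ 2) :
    SP f (C w.leadingCoeff⁻¹ * w) (-v) ∧
      cl (idl f (C w.leadingCoeff⁻¹ * w) (-v)) = cl (idl f u v) := by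
  obtain ⟨h1, h2⟩ := redu_idl hf.out h hw
  refine ⟨h1, ?_⟩
  have hz : (⟨v, 1⟩ : Rg f) ≠ 0 := by
    intro h3
    exact one_ne_zero (congrArg QuadraticAlgebra.im h3)
  have h3 := congrArg cl h2
  rw [cl_mul (span_ne hz) (idl_ne_bot h), cl_mul (span_ne (rl_ne h.1)) (idl_ne_bot h1),
    cl_span hz, cl_span (rl_ne h.1), one_mul, one_mul] at h3
  exact h3.symm

private theorem red_aux : ∀ (n : ℕ) (u v : k[X]), u.natDegree = n → SP f u v →
    v.degree < u.degree → ∃ u' v' : k[X], SP f u' v' ∧ v'.degree < u'.degree ∧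
      u'.natDegree ≤ gn f + 1 ∧ cl (idl f u' v') = cl (idl f u v) := by
  intro n
  induction n using Nat.strong_induction_on with
  | _ n ih =>
    intro u v hn h hv
    by_cases hu : u.natDegree ≤ gn f + 1
    · exact ⟨u, v, h, hv, hu, rfl⟩
    · obtain ⟨w, hw⟩ := h.2
      obtain ⟨h1, h2⟩ := cl_redu h hw.symm
      have h3 := redu_deg hf.out h hw.symm hv (by omega)
      have h4 : C w.leadingCoeff⁻¹ * w ∣ -v - (-v) % (C w.leadingCoeff⁻¹ * w) := by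
        refine ⟨(-v) / (C w.leadingCoeff⁻¹ * w), ?_⟩
        have h5 := EuclideanDomain.div_add_mod (-v) (C w.leadingCoeff⁻¹ * w)
        exact (eq_sub_of_add_eq h5).symm
      have h6 := idl_congr h1 h4
      obtain ⟨u', v', h7, h8, h9, h10⟩ := ih _ (by rwa [hn] at h3) _ _ rfl (h1.congr h4)
        (degree_mod_lt _ h1.1.ne_zero)
      exact ⟨u', v', h7, h8, h9, by rw [h10, h6, h2]⟩

theorem cl_red_ex (c : ClassGroup (Rg f)) : ∃ u v : k[X], SP f u v ∧ v.degree < u.degree ∧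
    u.natDegree ≤ gn f + 1 ∧ cl (idl f u v) = c := by
  obtain ⟨u, v, h, hv, rfl⟩ := cl_surj c
  exact red_aux _ u v rfl h hv

end Pool.Agent.HyE
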