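import Pool.Agent.HyE.Hnf

/-!
# Package HyE-Ded: the ring is a Dedekind domain, norms of ideals

Complete proofs.

* `inv_ex`: by `hnf` and `idl_mul_cj` every nonzero ideal `I` has an ideal `J` with `I J = (z)`,
  `z ≠ 0`.
* `isDedekind`: `isDedekindDomain_iff_isDedekindDomainInv` (RingTheory/DedekindDomain/Ideal/Basic)
  and `isDedekindDomainInv_iff`: every nonzero fractional ideal is `(1/a) I` with an ideal `I ≠ 0`,
  and `I` is invertible by `inv_ex` (`FractionalIdeal.mul_inv_cancel_iff`,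
  `FractionalIdeal.exists_eq_spanSingleton_mul`).
* `nrm_ex`: for `I = (d)(u, y - v)`: `I I' = (d²)(u)`; so `nrm_spec`.
* `nrm_uniq`: `(rl n) = (rl n')` with monic `n`, `n'` gives `n ∣ n'` and `n' ∣ n` (first coordinates),
  so `n = n'`.
* `nrm_mul`: `cjI_mul`, `mul_mul_mul_comm`; `nrm_idl`, `nrm_span`: by `nrm_uniq`, `mul_cj`.
* `nrm_dvd`: `J` divides `I` iff `I ≤ J` (`Ideal.dvd_iff_le` for Dedekind domains).
* `nrm_top`, `nrm_one_iff`: `nrm I = 1` gives `I I' = (1)`, so `I = ⊤`.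
-/

set_option autoImplicit false

noncomputable section

namespace Pool.Agent.HyE

open Polynomial
open scoped Classical

variable {k : Type} [Field k] {f : k[X]}

private theorem ded_rl_mul (a b : k[X]) : (rl a : Rg f) * rl b = rl (a * b) := by
  ext1 <;> simp

private theorem ded_inv_ex (hf : Inert f) {I : Ideal (Rg f)} (hI : I ≠ ⊥) :
    ∃ (J : Ideal (Rg f)) (n : k[X]), n.Monic ∧ I * J = Ideal.span {rl n} := by
  obtain ⟨d, u, v, hd, h, _, rfl⟩ := hnf hf hI
  refine ⟨idl f u (-v), d * u, hd.mul h.1, ?_⟩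
  rw [mul_assoc, idl_mul_cj hf h, Ideal.span_singleton_mul_span_singleton, ded_rl_mul]

private theorem ded_rl_ne {n : k[X]} (hn : n.Monic) : (rl n : Rg f) ≠ 0 := by
  intro h
  have := congrArg QuadraticAlgebra.re h
  simp at this
  exact hn.ne_zero this

theorem isDedekind (hf : Inert f) : IsDedekindDomain (Rg f) := by
  have := isDomain hf
  rw [isDedekindDomain_iff_mul_inv_cancel (K := FractionRing (Rg f))]
  intro I hI
  obtain ⟨a, J, ha, hJ⟩ := FractionalIdeal.exists_eq_spanSingleton_mul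
    (K := FractionRing (Rg f)) I
  have hJ0 : J ≠ ⊥ := by
    rintro rfl
    apply hI
    rw [hJ]
    simp
  obtain ⟨J', n, hn, hJJ⟩ := ded_inv_ex hf hJ0
  rw [FractionalIdeal.mul_inv_cancel_iff]
  have hz : algebraMap (Rg f) (FractionRing (Rg f)) (rl n) ≠ 0 := by
    intro h
    exact ded_rl_ne hn ((IsFractionRing.injective (Rg f) (FractionRing (Rg f)))
      (by rw [h, map_zero]))
  have ha' : algebraMap (Rg f) (FractionRing (Rg f)) a ≠ 0 := by
    intro h
    exact ha ((IsFractionRing.injective (Rg f) (FractionRing (Rg f)))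
      (by rw [h, map_zero]))
  refine ⟨FractionalIdeal.spanSingleton _ (algebraMap (Rg f) (FractionRing (Rg f)) a *
    (algebraMap (Rg f) (FractionRing (Rg f)) (rl n))⁻¹) * (J' : FractionalIdeal _ _), ?_⟩
  rw [hJ]
  rw [mul_mul_mul_comm, ← FractionalIdeal.coeIdeal_mul, hJJ,
    FractionalIdeal.coeIdeal_span_singleton, FractionalIdeal.spanSingleton_mul_spanSingleton,
    FractionalIdeal.spanSingleton_mul_spanSingleton]
  rw [← FractionalIdeal.spanSingleton_one]
  congr 1
  field_simp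

instance [h : Fact (Inert f)] : IsDedekindDomain (Rg f) := isDedekind h.out

private theorem ded_mul_cjI (hf : Inert f) {d u v : k[X]} (h : SP f u v) :
    Ideal.span {rl d} * idl f u v * cjI (Ideal.span {rl d} * idl f u v) =
      Ideal.span {rl (d ^ 2 * u)} := by
  have hc : cj (rl d : Rg f) = rl d := by
    ext1 <;> simp [cj]
  rw [cjI_mul, cjI_span, cjI_idl h, hc, mul_mul_mul_comm, idl_mul_cj hf h,
    Ideal.span_singleton_mul_span_singleton, Ideal.span_singleton_mul_span_singleton,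
    ded_rl_mul, ded_rl_mul, ← pow_two]

theorem nrm_spec (hf : Inert f) {I : Ideal (Rg f)} (hI : I ≠ ⊥) :
    (nrm I).Monic ∧ I * cjI I = Ideal.span {rl (nrm I)} := by
  have hex : ∃ n : k[X], n.Monic ∧ I * cjI I = Ideal.span {rl n} := by
    obtain ⟨d, u, v, hd, h, _, rfl⟩ := hnf hf hI
    exact ⟨d ^ 2 * u, (hd.pow 2).mul h.1, ded_mul_cjI hf h⟩
  unfold nrm
  rw [dif_pos hex]
  exact hex.choose_spec

theorem nrm_uniq {I : Ideal (Rg f)} {n : k[X]} (hn : n.Monic)
    (h : I * cjI I = Ideal.span {rl n}) : nrm I = n := by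
  have hex : ∃ n : k[X], n.Monic ∧ I * cjI I = Ideal.span {rl n} := ⟨n, hn, h⟩
  unfold nrm
  rw [dif_pos hex]
  obtain ⟨h1, h2⟩ := hex.choose_spec
  generalize hex.choose = m at h1 h2
  have key : ∀ a b : k[X], (Ideal.span {(rl a : Rg f)}) = Ideal.span {rl b} → b ∣ a := by
    intro a b hab
    have hm : (rl a : Rg f) ∈ Ideal.span {(rl b : Rg f)} := by
      rw [← hab]
      exact Ideal.mem_span_singleton_self _
    obtain ⟨w, hw⟩ := Ideal.mem_span_singleton'.1 hm
    have := congrArg QuadraticAlgebra.re hw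
    simp at this
    exact ⟨w.re, by rw [← this, mul_comm]⟩
  have e : (Ideal.span {(rl m : Rg f)}) = Ideal.span {rl n} := h2.symm.trans h
  exact eq_of_monic_of_associated h1 hn (associated_of_dvd_dvd (key _ _ e.symm) (key _ _ e))

theorem nrm_mul (hf : Inert f) {I J : Ideal (Rg f)} (hI : I ≠ ⊥) (hJ : J ≠ ⊥) :
    nrm (I * J) = nrm I * nrm J := by
  obtain ⟨h1, h2⟩ := nrm_spec hf hI
  obtain ⟨h3, h4⟩ := nrm_spec hf hJ
  refine nrm_uniq (h1.mul h3) ?_
  rw [cjI_mul, mul_mul_mul_comm, h2, h4, Ideal.span_singleton_mul_span_singleton, ded_rl_mul]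

theorem nrm_d_idl (hf : Inert f) {d u v : k[X]} (hd : d.Monic) (h : SP f u v) :
    nrm (Ideal.span {rl d} * idl f u v) = d ^ 2 * u :=
  nrm_uniq ((hd.pow 2).mul h.1) (ded_mul_cjI hf h)

theorem nrm_idl (hf : Inert f) {u v : k[X]} (h : SP f u v) : nrm (idl f u v) = u := by
  refine nrm_uniq h.1 ?_
  rw [cjI_idl h, idl_mul_cj hf h]

theorem nrm_span (hf : Inert f) {z : Rg f} (hz : z ≠ 0) :
    (nrm (Ideal.span {z})).natDegree = (nm z).natDegree := by
  have hn : nm z ≠ 0 := nm_ne hf hz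
  have hc : (nm z).leadingCoeff⁻¹ ≠ 0 := inv_ne_zero (leadingCoeff_ne_zero.2 hn)
  have hm : (nm z * C (nm z).leadingCoeff⁻¹).Monic := monic_mul_leadingCoeff_inv hn
  have hu : IsUnit (rl (C (nm z).leadingCoeff⁻¹) : Rg f) := by
    refine IsUnit.of_mul_eq_one (rl (C (nm z).leadingCoeff)) ?_
    rw [ded_rl_mul, ← C_mul, inv_mul_cancel₀ (leadingCoeff_ne_zero.2 hn)]
    rfl
  have e : nrm (Ideal.span {z}) = nm z * C (nm z).leadingCoeff⁻¹ := by
    refine nrm_uniq hm ?_
    rw [cjI_span, Ideal.span_singleton_mul_span_singleton, mul_cj, ← ded_rl_mul,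
      Ideal.span_singleton_mul_right_unit hu]
  rw [e, natDegree_mul_leadingCoeff_inv _ hn]

theorem nrm_deg_mul (hf : Inert f) {I J : Ideal (Rg f)} (hI : I ≠ ⊥) (hJ : J ≠ ⊥) :
    (nrm (I * J)).natDegree = (nrm I).natDegree + (nrm J).natDegree := by
  rw [nrm_mul hf hI hJ, (nrm_spec hf hI).1.natDegree_mul (nrm_spec hf hJ).1]

theorem nrm_eq_zero_iff (hf : Inert f) {I : Ideal (Rg f)} (hI : I ≠ ⊥) :
    (nrm I).natDegree = 0 ↔ I = ⊤ := by
  have h1 : (rl (1 : k[X]) : Rg f) = 1 := rfl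
  constructor
  · intro h
    obtain ⟨hm, hs⟩ := nrm_spec hf hI
    have e : nrm I = 1 := hm.natDegree_eq_zero.1 h
    rw [e, h1, Ideal.span_singleton_one] at hs
    rw [eq_top_iff, ← hs]
    exact Ideal.mul_le_left
  · intro h
    rw [h, ← idl_one, nrm_idl hf ⟨monic_one, one_dvd _⟩, natDegree_one]

end Pool.Agent.HyE
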