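import Mathlib

/-!
# Hyperelliptic curves with an inert place at infinity: definitions

Project HYP (`MP_a56640_lc`). `k` is a field of characteristic not `2`, `f` a squarefree polynomial of even
degree `2 g + 2` over `k` whose leading coefficient is not a square, `Rg f = k[x, y] / (y² - f(x))`.

* `Inert f`: these conditions; `gn f`: the number `g`;
* `nm z = z z'`: the norm, `cj z = z'`: the conjugate;
* `SP f u v`: `u` is monic and divides `f - v²`; `idl f u v`: the ideal `(u, y - v)`;
* `nrm I`: the norm of an ideal `I`, the monic polynomial `n` with `I I' = (n)`;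
* `cl I`: the class of the ideal `I`;
* `CanS f`: the reduced pairs `(u, v)` with `deg u ≤ g`, `deg u ≡ g mod 2`;
* `Ev f`: the group of the classes of the ideals with norms of even degree.
-/

set_option autoImplicit false

noncomputable section

namespace Pool.Agent.HyE

open Polynomial
open scoped Classical

variable {k : Type} [Field k]

/-- The coordinate ring `k[x, y] / (y² - f(x))`; its element `⟨a, b⟩` is `a(x) + b(x) y`. -/
abbrev Rg (f : k[X]) : Type := QuadraticAlgebra k[X] f 0

/-- a polynomial in `x` as an element of the coordinate ring -/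
abbrev rl {f : k[X]} (a : k[X]) : Rg f := ⟨a, 0⟩

/-- the conjugation `a + b y ↦ a - b y` -/
def cj {f : k[X]} : Rg f ≃+* Rg f where
  toFun z := ⟨z.re, -z.im⟩
  invFun z := ⟨z.re, -z.im⟩
  left_inv z := by simp
  right_inv z := by simp
  map_mul' z w := by
    ext1
    · simp only [QuadraticAlgebra.re_mul]; ring
    · simp only [QuadraticAlgebra.im_mul]; ring
  map_add' z w := by
    ext1
    · simp
    · simp; ring

/-- the norm `a² - f b²` of `a + b y` -/
def nm {f : k[X]} (z : Rg f) : k[X] := z.re ^ 2 - f * z.im ^ 2

/-- `f` is squarefree of even positive degree, its leading coefficient is not a square, and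
`2 ≠ 0`. -/
structure Inert (f : k[X]) : Prop where
  even : Even f.natDegree
  pos : 2 ≤ f.natDegree
  lead : ¬ IsSquare f.leadingCoeff
  sqf : Squarefree f
  two : (2 : k) ≠ 0

/-- the genus -/
def gn (f : k[X]) : ℕ := f.natDegree / 2 - 1

/-- `u` is monic and divides `f - v²` -/
def SP (f u v : k[X]) : Prop := u.Monic ∧ u ∣ f - v ^ 2

/-- the ideal `(u, y - v)` -/
def idl (f u v : k[X]) : Ideal (Rg f) := Ideal.span {rl u, ⟨-v, 1⟩}

/-- the conjugate of an ideal -/
def cjI {f : k[X]} (I : Ideal (Rg f)) : Ideal (Rg f) := I.map (cj (f := f))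

/-- the norm of an ideal: the monic polynomial `n` with `I I' = (n)` (`0` if there is none) -/
def nrm {f : k[X]} (I : Ideal (Rg f)) : k[X] :=
  if h : ∃ n : k[X], n.Monic ∧ I * cjI I = Ideal.span {rl n} then h.choose else 0

/-- The reduced pairs `(u, v)` with `deg u ≤ g`, `deg u ≡ g mod 2`. -/
def CanS (f : k[X]) : Set (k[X] × k[X]) :=
  {w | SP f w.1 w.2 ∧ w.2.degree < w.1.degree ∧ w.1.natDegree ≤ gn f ∧
    w.1.natDegree % 2 = gn f % 2}

end Pool.Agent.HyE
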