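import Pool.Agent.HyE.CDefs

/-!
# The parameters of the family: definitions

`v = (p, a, b, c₀, ..., c_(2g+2))`: a prime `p`, a base point `(a, b)`, the coefficients of `f`.
-/

set_option autoImplicit false

noncomputable section

namespace Pool.Agent.HyE

open Polynomial Pool.Agent.PRc
open scoped Classical

/-- the polynomial modulo `v 0` -/
abbrev vpol (g : ℕ) (v : Fin (2 * g + 6) → ℕ) [Fact (v 0).Prime] : (ZMod (v 0))[X] :=
  pol g (fun i => (v i.succ : ZMod (v 0)))

/-- `v 0` is a prime, the polynomial modulo `v 0` is `Inert` of degree `2 g + 2`, and if `g` is odd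
then `(v 1, v 2)` is a point. -/
def VPar (g : ℕ) (v : Fin (2 * g + 6) → ℕ) : Prop :=
  ∃ h : (v 0).Prime, haveI := Fact.mk h; Inert (vpol g v) ∧ (vpol g v).natDegree = 2 * g + 2 ∧
    (g % 2 = 1 → (v 2 : ZMod (v 0)) ^ 2 = (vpol g v).eval (v 1 : ZMod (v 0)))

/-- valid parameters -/
structure Par (g : ℕ) where
  v : Fin (2 * g + 6) → ℕ
  valid : VPar g v

/-- the prime -/
abbrev Par.p {g : ℕ} (x : Par g) : ℕ := x.v 0

instance {g : ℕ} (x : Par g) : Fact x.p.Prime := ⟨x.valid.choose⟩

/-- the parameters of the law -/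
def Par.c {g : ℕ} (x : Par g) : Fin (2 * g + 5) → ZMod x.p := fun i => (x.v i.succ : ZMod x.p)

/-- the polynomial -/
def Par.f {g : ℕ} (x : Par g) : (ZMod x.p)[X] := pol g x.c

instance {g : ℕ} (x : Par g) : Fact (Inert x.f) := ⟨x.valid.choose_spec.1⟩

theorem Par.gn_eq {g : ℕ} (x : Par g) : gn x.f = g := by
  have h := x.valid.choose_spec.2.1
  have h' : x.f.natDegree = 2 * g + 2 := h
  unfold gn
  omega

end Pool.Agent.HyE
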