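import Pool.Agent.HyE.Cls

/-!
# Package HyE-Grp: the group of the even classes, unique reduced pairs

Complete proofs.

* `uniq`: `cl (I₁ I₂') = 1` (`cl_neg`), so `I₁ I₂' = (z)`; its norm has degree
  `deg u₁ + deg u₂ ≤ 2 g` (`nrm_deg_mul`, `nrm_idl`, `nrm_span`), so `z.im = 0` by `nm_deg`: `z = rl a`,
  `a ≠ 0`; let `a'` be the monic multiple of `a`, `(rl a') = (rl a)`. Multiply by `I₂`:
  `I₁ (u₂) = (a') I₂`, so by `hnf_uniq` `u₂ = a'`, `u₁ = u₂`, `v₁ = v₂`.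
* `Ev`: closed under products (`nrm_mul`), inverses (`cl_surj`, `cl_neg`, `nrm_idl`; the parity of
  the class is well-defined by `par_cl`).
* `can_ex`: existence by `cl_red_ex` for `c * cl E`: the degree is `≤ g + 1` and its parity is that of
  `nrm E`, i.e. of `g`, by `par_cl` (`c * cl E = cl (I E)`), so it is `≤ g`; uniqueness by `uniq`.
* `can_mem`: `cl (idl w) (cl E)⁻¹ = cl (idl w * cjI E)` (up to `(nrm E)`): even degree. Note that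
  `cl (cjI E) = (cl E)⁻¹` by `nrm_spec`, and `nrm (cjI E) = nrm E`.
* `card_ev`: the bijection of `can_ex` and `can_mem` (`Nat.card_congr`).
-/

set_option autoImplicit false

noncomputable section

namespace Pool.Agent.HyE

open Polynomial
open scoped Classical

variable {k : Type} [Field k] {f : k[X]} [hf : Fact (Inert f)]

private theorem cjI_cjI_Grp (I : Ideal (Rg f)) : cjI (cjI I) = I := by
  ext z
  rw [mem_cjI, mem_cjI, cj_cj]

omit hf in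
private theorem rl_ne_Grp {u : k[X]} (hu : u ≠ 0) : (rl u : Rg f) ≠ 0 :=
  fun h => hu (congrArg QuadraticAlgebra.re h)

private theorem cjI_ne_Grp {I : Ideal (Rg f)} (hI : I ≠ ⊥) : cjI I ≠ ⊥ := by
  intro h
  apply hI
  rw [← cjI_cjI_Grp I, h]
  unfold cjI
  exact Ideal.map_bot

private theorem nrm_cjI_Grp {I : Ideal (Rg f)} (hI : I ≠ ⊥) : nrm (cjI I) = nrm I := by
  obtain ⟨h1, h2⟩ := nrm_spec hf.out hI
  refine nrm_uniq h1 ?_
  rw [cjI_cjI_Grp, mul_comm]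
  exact h2

private theorem cl_cjI_Grp {I : Ideal (Rg f)} (hI : I ≠ ⊥) : cl (cjI I) = (cl I)⁻¹ := by
  obtain ⟨h1, h2⟩ := nrm_spec hf.out hI
  have h3 := cl_mul hI (cjI_ne_Grp hI)
  rw [h2, cl_span (rl_ne_Grp h1.ne_zero)] at h3
  exact eq_inv_of_mul_eq_one_right h3.symm

theorem uniq {u₁ v₁ u₂ v₂ : k[X]} (h₁ : SP f u₁ v₁) (h₂ : SP f u₂ v₂)
    (hv₁ : v₁.degree < u₁.degree) (hv₂ : v₂.degree < u₂.degree) (hu₁ : u₁.natDegree ≤ gn f)
    (hu₂ : u₂.natDegree ≤ gn f) (h : cl (idl f u₁ v₁) = cl (idl f u₂ v₂)) :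
    u₁ = u₂ ∧ v₁ = v₂ := by
  have hI := idl_ne_bot h₁
  have hJ := idl_ne_bot h₂.neg
  have hIJ : idl f u₁ v₁ * idl f u₂ (-v₂) ≠ ⊥ := mul_ne_zero hI hJ
  have h1 : cl (idl f u₁ v₁ * idl f u₂ (-v₂)) = 1 := by
    rw [cl_mul hI hJ, cl_neg h₂, h, mul_inv_cancel]
  obtain ⟨z, hz⟩ := (cl_eq_one_iff hIJ).1 h1
  have hz0 : z ≠ 0 := by
    rintro rfl
    apply hIJ
    rw [hz]
    exact Ideal.span_singleton_eq_bot.2 rfl
  have h2 := nrm_deg_mul hf.out hI hJ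
  rw [hz, nrm_span hf.out hz0, nrm_idl hf.out h₁, nrm_idl hf.out h₂.neg] at h2
  have him : z.im = 0 := by
    by_contra h3
    rw [nm_deg hf.out z h3] at h2
    have := le_max_right z.re.natDegree (z.im.natDegree + gn f + 1)
    omega
  have hza : z = rl z.re := by
    ext1
    · rfl
    · exact him
  have ha : z.re ≠ 0 := by
    intro h3
    apply hz0
    rw [hza, h3]
    rfl
  have hm : (z.re * C z.re.leadingCoeff⁻¹).Monic := monic_mul_leadingCoeff_inv ha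
  have hs : Ideal.span {(rl (z.re * C z.re.leadingCoeff⁻¹) : Rg f)} = Ideal.span {rl z.re} := by
    have e1 : (rl (z.re * C z.re.leadingCoeff⁻¹) : Rg f) =
        rl z.re * rl (C z.re.leadingCoeff⁻¹) := by
      ext1
      · simp only [QuadraticAlgebra.re_mul]
        ring
      · simp only [QuadraticAlgebra.im_mul]
        ring
    have e2 : IsUnit (rl (C z.re.leadingCoeff⁻¹) : Rg f) := by
      refine IsUnit.of_mul_eq_one (rl (C z.re.leadingCoeff)) ?_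
      have e3 : (rl (C z.re.leadingCoeff⁻¹) : Rg f) * rl (C z.re.leadingCoeff) =
          rl (C z.re.leadingCoeff⁻¹ * C z.re.leadingCoeff) := by
        ext1
        · simp only [QuadraticAlgebra.re_mul]
          ring
        · simp only [QuadraticAlgebra.im_mul]
          ring
      rw [e3, ← C_mul, inv_mul_cancel₀ (leadingCoeff_ne_zero.2 ha)]
      rfl
    rw [e1]
    exact Ideal.span_singleton_mul_right_unit e2 _
  have h3 : Ideal.span {rl u₂} * idl f u₁ v₁ =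
      Ideal.span {rl (z.re * C z.re.leadingCoeff⁻¹)} * idl f u₂ v₂ := by
    rw [hs, ← hza, ← hz, mul_assoc, mul_comm (idl f u₂ (-v₂)), idl_mul_cj hf.out h₂, mul_comm]
  obtain ⟨h4, h5, h6⟩ := hnf_uniq hf.out h₂.1 hm h₁ h₂ hv₁ hv₂ h3
  exact ⟨h5, h6⟩

theorem ev_closed : (∃ I : Ideal (Rg f), I ≠ ⊥ ∧ Even (nrm I).natDegree ∧ cl I = 1) ∧
    (∀ a b : ClassGroup (Rg f),
      (∃ I : Ideal (Rg f), I ≠ ⊥ ∧ Even (nrm I).natDegree ∧ cl I = a) →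
      (∃ I : Ideal (Rg f), I ≠ ⊥ ∧ Even (nrm I).natDegree ∧ cl I = b) →
      ∃ I : Ideal (Rg f), I ≠ ⊥ ∧ Even (nrm I).natDegree ∧ cl I = a * b) ∧
    ∀ a : ClassGroup (Rg f),
      (∃ I : Ideal (Rg f), I ≠ ⊥ ∧ Even (nrm I).natDegree ∧ cl I = a) →
      ∃ I : Ideal (Rg f), I ≠ ⊥ ∧ Even (nrm I).natDegree ∧ cl I = a⁻¹ := by
  refine ⟨⟨⊤, top_ne_bot, ?_, cl_top⟩, ?_, ?_⟩
  · rw [(nrm_eq_zero_iff hf.out top_ne_bot).2 rfl]
    exact Even.zero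
  · rintro a b ⟨I, hI, hI', rfl⟩ ⟨J, hJ, hJ', rfl⟩
    refine ⟨I * J, mul_ne_zero hI hJ, ?_, cl_mul hI hJ⟩
    rw [nrm_deg_mul hf.out hI hJ]
    exact hI'.add hJ'
  · rintro a ⟨I, hI, hI', rfl⟩
    refine ⟨cjI I, cjI_ne_Grp hI, ?_, cl_cjI_Grp hI⟩
    rw [nrm_cjI_Grp hI]
    exact hI'

variable (f) in
/-- the classes of the ideals with norms of even degree -/
def Ev : Subgroup (ClassGroup (Rg f)) where
  carrier := {c | ∃ I : Ideal (Rg f), I ≠ ⊥ ∧ Even (nrm I).natDegree ∧ cl I = c}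
  one_mem' := ev_closed.1
  mul_mem' ha hb := ev_closed.2.1 _ _ ha hb
  inv_mem' ha := ev_closed.2.2 _ ha

theorem can_ex {E : Ideal (Rg f)} (hE : E ≠ ⊥) (hE' : (nrm E).natDegree % 2 = gn f % 2)
    {c : ClassGroup (Rg f)} (hc : c ∈ Ev f) :
    ∃! w : k[X] × k[X], w ∈ CanS f ∧ cl (idl f w.1 w.2) = c * cl E := by
  obtain ⟨I, hI, hI', rfl⟩ := hc
  obtain ⟨u, v, h, hv, hu, hc⟩ := cl_red_ex (cl I * cl E)
  have h1 : (nrm (idl f u v)).natDegree % 2 = (nrm (I * E)).natDegree % 2 := by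
    apply par_cl (idl_ne_bot h) (mul_ne_zero hI hE)
    rw [hc, cl_mul hI hE]
  rw [nrm_idl hf.out h, nrm_deg_mul hf.out hI hE] at h1
  obtain ⟨r, hr⟩ := hI'
  refine ⟨(u, v), ⟨⟨h, hv, ?_, ?_⟩, hc⟩, ?_⟩
  · show u.natDegree ≤ gn f
    omega
  · show u.natDegree % 2 = gn f % 2
    omega
  · rintro ⟨u', v'⟩ ⟨⟨h2, h3, h4, h5⟩, h6⟩
    have h7 : u.natDegree ≤ gn f := by omega
    obtain ⟨e1, e2⟩ := uniq h2 h h3 hv h4 h7 (h6.trans hc.symm)
    simp only at e1 e2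
    rw [e1, e2]

theorem can_mem {E : Ideal (Rg f)} (hE : E ≠ ⊥) (hE' : (nrm E).natDegree % 2 = gn f % 2)
    {w : k[X] × k[X]} (hw : w ∈ CanS f) : cl (idl f w.1 w.2) * (cl E)⁻¹ ∈ Ev f := by
  obtain ⟨h1, h2, h3, h4⟩ := hw
  refine ⟨idl f w.1 w.2 * cjI E, mul_ne_zero (idl_ne_bot h1) (cjI_ne_Grp hE), ?_, ?_⟩
  · rw [nrm_deg_mul hf.out (idl_ne_bot h1) (cjI_ne_Grp hE), nrm_idl hf.out h1, nrm_cjI_Grp hE,
      Nat.even_iff]
    omega
  · rw [cl_mul (idl_ne_bot h1) (cjI_ne_Grp hE), cl_cjI_Grp hE]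

theorem card_ev {E : Ideal (Rg f)} (hE : E ≠ ⊥) (hE' : (nrm E).natDegree % 2 = gn f % 2) :
    Nat.card (Ev f) = Nat.card (CanS f) := by
  symm
  refine Nat.card_eq_of_bijective
    (fun w : CanS f => (⟨cl (idl f w.1.1 w.1.2) * (cl E)⁻¹, can_mem hE hE' w.2⟩ : Ev f))
    ⟨?_, ?_⟩
  · rintro ⟨w, hw⟩ ⟨w', hw'⟩ h
    have h1 : cl (idl f w.1 w.2) * (cl E)⁻¹ = cl (idl f w'.1 w'.2) * (cl E)⁻¹ :=
      congrArg Subtype.val h
    have h2 := mul_right_cancel h1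
    obtain ⟨e1, e2⟩ := uniq hw.1 hw'.1 hw.2.1 hw'.2.1 hw.2.2.1 hw'.2.2.1 h2
    exact Subtype.ext (Prod.ext e1 e2)
  · rintro ⟨c, hc⟩
    obtain ⟨w, ⟨hw, h1⟩, _⟩ := can_ex hE hE' hc
    refine ⟨⟨w, hw⟩, Subtype.ext ?_⟩
    show cl (idl f w.1 w.2) * (cl E)⁻¹ = c
    rw [h1, mul_inv_cancel_right]

end Pool.Agent.HyE
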