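import Pool.Agent.HyE.Idl

/-!
# Package HyE-Hnf: the normal form of the ideals

Complete proofs.

* `hnf`: let `I ≠ 0`. The second coordinates `b` of the elements `a + b y` of `I` are an ideal of
  `k[X]`, generated by a monic `d` (not zero: `y z ∈ I` has second coordinate `a`); choose
  `a₀ + d y ∈ I`. `I ∩ k[X]` is generated by a monic `n` (it contains `nm z` for `z ∈ I`). Since
  `n y ∈ I`, `d ∣ n`; since `y (a₀ + d y) ∈ I` has second coordinate `a₀`, `d ∣ a₀`: `a₀ = - d v`,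
  `n = d u`. Then `I = {a + b y | d ∣ b, n ∣ a + b v}`: for `a + b y ∈ I`, `b = d c`, and
  `a + b y - c (a₀ + d y) = a + b v ∈ I ∩ k[X]`. So `d (y - v) ∈ I`, and multiplied by `y + v`:
  `d (f - v²) ∈ I ∩ k[X]`, so `u ∣ f - v²`. Replace `v` by `v % u` (`idl_congr`;
  `EuclideanDomain.mod_lt`, `degree_mod_lt`). Finally `I = (d) (u, y - v)` by `mem_idl`.
* `hnf_uniq`: `d` generates the ideal of the second coordinates, `d u` generates the intersection
  with `k[X]`, and `d (y - v)`, `d (y - v')` are in the ideal, so `d (v - v')` is, so `u ∣ v - v'`,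
  so `v = v'` by the degrees (`Polynomial.eq_zero_of_dvd_of_degree_lt`).
  Monic polynomials which generate the same ideal are equal (`eq_of_monic_of_associated`).
-/

set_option autoImplicit false

noncomputable section

namespace Pool.Agent.HyE

open Polynomial
open scoped Classical

variable {k : Type} [Field k] {f : k[X]}

theorem mem_d_idl (hf : Inert f) {d u v : k[X]} (hd : d.Monic) (h : SP f u v) (z : Rg f) :
    z ∈ Ideal.span {rl d} * idl f u v ↔ d ∣ z.im ∧ d * u ∣ z.re + z.im * v := by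
  rw [Ideal.mem_span_singleton_mul]
  constructor
  · rintro ⟨w, hw, rfl⟩
    rw [mem_idl h] at hw
    obtain ⟨c, hc⟩ := hw
    have h1 : (rl d * w).re = d * w.re := by
      simp [QuadraticAlgebra.re_mul]
    have h2 : (rl d * w).im = d * w.im := by
      simp [QuadraticAlgebra.im_mul]
    rw [h1, h2]
    refine ⟨dvd_mul_right _ _, c, ?_⟩
    linear_combination d * hc
  · rintro ⟨⟨b, hb⟩, c, hc⟩
    refine ⟨⟨u * c - b * v, b⟩, ?_, ?_⟩
    · rw [mem_idl h]
      exact ⟨c, by ring⟩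
    · ext1
      · simp only [QuadraticAlgebra.re_mul]
        linear_combination -hc + v * hb
      · simp only [QuadraticAlgebra.im_mul]
        linear_combination -hb

private theorem exists_monic_Hnf (J : Ideal k[X]) (hJ : J ≠ ⊥) :
    ∃ d : k[X], d.Monic ∧ ∀ a, a ∈ J ↔ d ∣ a := by
  obtain ⟨g, hg⟩ := (IsPrincipalIdealRing.principal J).principal
  have hg0 : g ≠ 0 := by
    intro h0
    apply hJ
    rw [hg, h0]
    simp
  refine ⟨g * C (g.leadingCoeff)⁻¹, monic_mul_leadingCoeff_inv hg0, fun a => ?_⟩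
  have h1 : a ∈ J ↔ g ∣ a := by
    rw [hg]
    exact Ideal.mem_span_singleton
  rw [h1]
  have h2 : IsUnit (C (g.leadingCoeff)⁻¹ : k[X]) :=
    isUnit_C.2 (isUnit_iff_ne_zero.2 (inv_ne_zero (leadingCoeff_ne_zero.2 hg0)))
  exact (h2.mul_right_dvd).symm

private theorem hnf_aux_Hnf (hf : Inert f) {I : Ideal (Rg f)} (hI : I ≠ ⊥) :
    ∃ d u v : k[X], d.Monic ∧ SP f u v ∧
      ∀ z : Rg f, z ∈ I ↔ d ∣ z.im ∧ d * u ∣ z.re + z.im * v := by
  let S₁ : Ideal k[X] :=
    { carrier := {a | (rl a : Rg f) ∈ I}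
      zero_mem' := I.zero_mem
      add_mem' := by
        intro a b ha hb
        have h1 : (rl (a + b) : Rg f) = rl a + rl b := by
          ext1 <;> simp
        show (rl (a + b) : Rg f) ∈ I
        rw [h1]
        exact I.add_mem ha hb
      smul_mem' := by
        intro c a ha
        have h1 : (rl (c • a) : Rg f) = rl c * rl a := by
          ext1 <;> simp [QuadraticAlgebra.re_mul, QuadraticAlgebra.im_mul]
        show (rl (c • a) : Rg f) ∈ I
        rw [h1]
        exact I.mul_mem_left _ ha }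
  let S₂ : Ideal k[X] :=
    { carrier := {b | ∃ a, (⟨a, b⟩ : Rg f) ∈ I}
      zero_mem' := ⟨0, I.zero_mem⟩
      add_mem' := by
        rintro b b' ⟨a, ha⟩ ⟨a', ha'⟩
        refine ⟨a + a', ?_⟩
        have h1 : (⟨a + a', b + b'⟩ : Rg f) = ⟨a, b⟩ + ⟨a', b'⟩ := by
          ext1 <;> simp
        rw [h1]
        exact I.add_mem ha ha'
      smul_mem' := by
        rintro c b ⟨a, ha⟩
        refine ⟨c * a, ?_⟩
        have h1 : (⟨c * a, c • b⟩ : Rg f) = rl c * ⟨a, b⟩ := by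
          ext1 <;> simp [QuadraticAlgebra.re_mul, QuadraticAlgebra.im_mul]
        rw [h1]
        exact I.mul_mem_left _ ha }
  have m1 : ∀ a, a ∈ S₁ ↔ (rl a : Rg f) ∈ I := fun _ => Iff.rfl
  have m2 : ∀ b, b ∈ S₂ ↔ ∃ a, (⟨a, b⟩ : Rg f) ∈ I := fun _ => Iff.rfl
  obtain ⟨z, hz, hz0⟩ := Submodule.exists_mem_ne_zero_of_ne_bot hI
  have hn : nm z ∈ S₁ := by
    rw [m1, ← mul_cj]
    exact I.mul_mem_right _ hz
  have h12 : ∀ a, a ∈ S₁ → a ∈ S₂ := by
    intro a ha
    refine (m2 a).2 ⟨0, ?_⟩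
    have h1 : (⟨0, a⟩ : Rg f) = ⟨0, 1⟩ * rl a := by
      ext1 <;> simp [QuadraticAlgebra.re_mul, QuadraticAlgebra.im_mul]
    rw [h1]
    exact I.mul_mem_left _ ha
  have hS₁ : S₁ ≠ ⊥ := by
    intro h
    rw [h] at hn
    exact nm_ne hf hz0 ((Submodule.mem_bot _).1 hn)
  have hS₂ : S₂ ≠ ⊥ := by
    intro h
    have h1 := h12 _ hn
    rw [h] at h1
    exact nm_ne hf hz0 ((Submodule.mem_bot _).1 h1)
  obtain ⟨n, hnm, hn1⟩ := exists_monic_Hnf S₁ hS₁
  obtain ⟨d, hd, hd1⟩ := exists_monic_Hnf S₂ hS₂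
  obtain ⟨a₀, ha₀⟩ := (m2 d).1 ((hd1 d).2 dvd_rfl)
  obtain ⟨u, hu⟩ : d ∣ n := (hd1 n).1 (h12 n ((hn1 n).2 dvd_rfl))
  have hw : d ∣ a₀ := by
    apply (hd1 a₀).1
    refine (m2 a₀).2 ⟨f * d, ?_⟩
    have h1 : (⟨f * d, a₀⟩ : Rg f) = ⟨0, 1⟩ * ⟨a₀, d⟩ := by
      ext1 <;> simp [QuadraticAlgebra.re_mul, QuadraticAlgebra.im_mul]
    rw [h1]
    exact I.mul_mem_left _ ha₀
  obtain ⟨w, hw⟩ := hw
  have hum : u.Monic := by
    rw [hu] at hnm
    exact hd.of_mul_monic_left hnm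
  refine ⟨d, u, -w, hd, ⟨hum, ?_⟩, fun z => ?_⟩
  · have h1 : (⟨-w, 1⟩ : Rg f) * ⟨a₀, d⟩ = rl (d * (f - (-w) ^ 2)) := by
      rw [hw]
      ext1
      · simp only [QuadraticAlgebra.re_mul]
        ring
      · simp only [QuadraticAlgebra.im_mul]
        ring
    have h2 : n ∣ d * (f - (-w) ^ 2) := by
      rw [← hn1, m1, ← h1]
      exact I.mul_mem_left _ ha₀
    rw [hu] at h2
    exact (mul_dvd_mul_iff_left hd.ne_zero).1 h2
  · constructor
    · intro hz
      have h1 : d ∣ z.im := (hd1 z.im).1 ((m2 _).2 ⟨z.re, hz⟩)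
      refine ⟨h1, ?_⟩
      obtain ⟨c, hc⟩ := h1
      rw [← hu, ← hn1, m1]
      have h2 : (rl (z.re + z.im * -w) : Rg f) = z - rl c * ⟨a₀, d⟩ := by
        ext1
        · simp only [QuadraticAlgebra.re_mul, QuadraticAlgebra.re_sub]
          rw [hw, hc]
          ring
        · simp only [QuadraticAlgebra.im_mul, QuadraticAlgebra.im_sub]
          rw [hc]
          ring
      rw [h2]
      exact I.sub_mem hz (I.mul_mem_left _ ha₀)
    · rintro ⟨⟨c, hc⟩, h2⟩
      rw [← hu, ← hn1, m1] at h2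
      have h3 : z = rl (z.re + z.im * -w) + rl c * ⟨a₀, d⟩ := by
        ext1
        · simp only [QuadraticAlgebra.re_mul, QuadraticAlgebra.re_add]
          rw [hw, hc]
          ring
        · simp only [QuadraticAlgebra.im_mul, QuadraticAlgebra.im_add]
          rw [hc]
          ring
      rw [h3]
      exact I.add_mem h2 (I.mul_mem_left _ ha₀)

theorem hnf (hf : Inert f) {I : Ideal (Rg f)} (hI : I ≠ ⊥) :
    ∃ d u v : k[X], d.Monic ∧ SP f u v ∧ v.degree < u.degree ∧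
      I = Ideal.span {rl d} * idl f u v := by
  obtain ⟨d, u, v, hd, h, h1⟩ := hnf_aux_Hnf hf hI
  have h2 : u ∣ v - v % u := by
    refine ⟨v / u, ?_⟩
    have h3 := EuclideanDomain.div_add_mod v u
    linear_combination -h3
  refine ⟨d, u, v % u, hd, h.congr h2, EuclideanDomain.mod_lt v h.1.ne_zero, ?_⟩
  rw [idl_congr h h2]
  ext z
  rw [h1, mem_d_idl hf hd h]

theorem hnf_uniq (hf : Inert f) {d u v d' u' v' : k[X]} (hd : d.Monic) (hd' : d'.Monic)
    (h : SP f u v) (h' : SP f u' v') (hv : v.degree < u.degree) (hv' : v'.degree < u'.degree)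
    (he : Ideal.span {rl d} * idl f u v = Ideal.span {rl d'} * idl f u' v') :
    d = d' ∧ u = u' ∧ v = v' := by
  have key : ∀ z : Rg f, (d ∣ z.im ∧ d * u ∣ z.re + z.im * v) ↔
      (d' ∣ z.im ∧ d' * u' ∣ z.re + z.im * v') := by
    intro z
    rw [← mem_d_idl hf hd h, ← mem_d_idl hf hd' h', he]
  have k1 := (key ⟨-(d * v), d⟩).1 ⟨dvd_rfl, by
    have h1 : -(d * v) + d * v = 0 := by ring
    show d * u ∣ -(d * v) + d * v
    rw [h1]
    exact dvd_zero _⟩
  have k2 := (key ⟨-(d' * v'), d'⟩).2 ⟨dvd_rfl, by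
    have h1 : -(d' * v') + d' * v' = 0 := by ring
    show d' * u' ∣ -(d' * v') + d' * v'
    rw [h1]
    exact dvd_zero _⟩
  have hdd : d = d' :=
    eq_of_monic_of_associated hd hd' (associated_of_dvd_dvd k2.1 k1.1)
  subst hdd
  have k3 := (key ⟨d * u, 0⟩).1 ⟨dvd_zero _, by
    show d * u ∣ d * u + 0 * v
    rw [zero_mul, add_zero]⟩
  have k4 := (key ⟨d * u', 0⟩).2 ⟨dvd_zero _, by
    show d * u' ∣ d * u' + 0 * v'
    rw [zero_mul, add_zero]⟩
  have k3' : d * u' ∣ d * u := by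
    have h1 := k3.2
    simp only [zero_mul, add_zero] at h1
    exact h1
  have k4' : d * u ∣ d * u' := by
    have h1 := k4.2
    simp only [zero_mul, add_zero] at h1
    exact h1
  have huu : u = u' :=
    eq_of_monic_of_associated h.1 h'.1 (associated_of_dvd_dvd
      ((mul_dvd_mul_iff_left hd.ne_zero).1 k4') ((mul_dvd_mul_iff_left hd.ne_zero).1 k3'))
  subst huu
  refine ⟨rfl, rfl, ?_⟩
  have k5 : d * u ∣ -(d * v) + d * v' := k1.2
  have k6 : u ∣ v' - v := by
    rw [← mul_dvd_mul_iff_left hd.ne_zero]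
    have h1 : d * (v' - v) = -(d * v) + d * v' := by ring
    rw [h1]
    exact k5
  have k7 : v' - v = 0 := by
    apply eq_zero_of_dvd_of_degree_lt k6
    exact lt_of_le_of_lt (degree_sub_le v' v) (max_lt hv' hv)
  exact (sub_eq_zero.1 k7).symm

end Pool.Agent.HyE
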