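import Pool.Agent.HyE.Norm

/-!
# Package HyE-Idl: the ideals `(u, y - v)`

Complete proofs.

* `mem_idl`: the set `{a + b y | u ∣ a + b v}` is an ideal: `(a + b y)(c + d y) = (a c + b d f) +
  (a d + b c) y` and `(a c + b d f) + (a d + b c) v = (a + b v)(c + d v) + b d (f - v²)`. It contains
  the generators, and if `a + b v = u c` then `a + b y = u c + b (y - v)`.
* `idl_mul_cj`: the product is generated by `u²`, `u (y + v)`, `u (y - v)`,
  `(y - v)(y + v) = f - v² = u w`; all are multiples of `u`. Conversely `2 v u` and `u²`, `u w` are in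
  the product and `u`, `v`, `w` have no common prime divisor since its square would divide
  `v² + u w = f`: so `u = r u² + s 2 v u + t u w` (`2` is a unit; use the gcd of `u`, `v`, `w` in `k[X]`).
* `idl_congr`: by `mem_idl`.
* `mem_cjI`: `Ideal.map` of a ring isomorphism (`Ideal.map_comap_of_equiv` or `Ideal.mem_map_of_equiv`);
  `cjI_mul`: `Ideal.map_mul`; `cjI_span`: `Ideal.map_span`; `cjI_idl`: `Ideal.map_span`, or by
  `mem_idl` for `-v`.
* `idl_ne_bot`: contains `rl u ≠ 0`.
* `rl_mem`: by `mem_idl`.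
-/

set_option autoImplicit false

noncomputable section

namespace Pool.Agent.HyE

open Polynomial
open scoped Classical

variable {k : Type} [Field k] {f u v : k[X]}

theorem SP.neg (h : SP f u v) : SP f u (-v) := by
  refine ⟨h.1, ?_⟩
  rw [neg_sq]
  exact h.2

theorem SP.congr (h : SP f u v) {v' : k[X]} (h' : u ∣ v - v') : SP f u v' := by
  refine ⟨h.1, ?_⟩
  have h1 : f - v' ^ 2 = (f - v ^ 2) + (v - v') * (v + v') := by ring
  rw [h1]
  exact dvd_add h.2 (h'.mul_right _)

/-- the ideal of the elements `a + b y` with `u ∣ a + b v` -/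
private def idlC (h : SP f u v) : Ideal (Rg f) where
  carrier := {z | u ∣ z.re + z.im * v}
  add_mem' := by
    intro z w hz hw
    simp only [Set.mem_ofPred_eq, QuadraticAlgebra.re_add, QuadraticAlgebra.im_add] at hz hw ⊢
    have h1 : z.re + w.re + (z.im + w.im) * v = (z.re + z.im * v) + (w.re + w.im * v) := by ring
    rw [h1]
    exact dvd_add hz hw
  zero_mem' := by simp
  smul_mem' := by
    intro c z hz
    simp only [Set.mem_ofPred_eq, smul_eq_mul, QuadraticAlgebra.re_mul,
      QuadraticAlgebra.im_mul] at hz ⊢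
    have h1 : c.re * z.re + f * c.im * z.im + (c.re * z.im + c.im * z.re + 0 * c.im * z.im) * v =
        (c.re + c.im * v) * (z.re + z.im * v) + c.im * z.im * (f - v ^ 2) := by ring
    rw [h1]
    exact dvd_add (hz.mul_left _) (h.2.mul_left _)

theorem mem_idl (h : SP f u v) (z : Rg f) : z ∈ idl f u v ↔ u ∣ z.re + z.im * v := by
  constructor
  · intro hz
    have hle : idl f u v ≤ idlC h := by
      unfold idl
      rw [Ideal.span_le]
      rintro w (rfl | rfl)
      · change u ∣ (rl u : Rg f).re + (rl u : Rg f).im * v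
        simp
      · change u ∣ -v + 1 * v
        simp
    exact hle hz
  · rintro ⟨c, hc⟩
    unfold idl
    rw [Ideal.mem_span_pair]
    refine ⟨rl c, rl z.im, ?_⟩
    ext1
    · simp only [QuadraticAlgebra.re_add, QuadraticAlgebra.re_mul]
      linear_combination -hc
    · simp only [QuadraticAlgebra.im_add, QuadraticAlgebra.im_mul]
      ring

theorem rl_mem (h : SP f u v) (a : k[X]) : rl a ∈ idl f u v ↔ u ∣ a := by
  rw [mem_idl h]
  simp

theorem idl_ne_bot (h : SP f u v) : idl f u v ≠ ⊥ := by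
  intro h0
  have h1 : (rl u : Rg f) ∈ idl f u v := (rl_mem h u).2 dvd_rfl
  rw [h0, Ideal.mem_bot] at h1
  exact h.1.ne_zero (congrArg QuadraticAlgebra.re h1)

theorem idl_congr (h : SP f u v) {v' : k[X]} (h' : u ∣ v - v') : idl f u v' = idl f u v := by
  ext z
  rw [mem_idl h, mem_idl (h.congr h')]
  have h1 : z.re + z.im * v = (z.re + z.im * v') + z.im * (v - v') := by ring
  rw [h1]
  exact (dvd_add_left (h'.mul_left _)).symm

theorem mem_cjI (I : Ideal (Rg f)) (z : Rg f) : z ∈ cjI I ↔ cj z ∈ I := by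
  unfold cjI
  rw [Ideal.mem_map_of_equiv]
  constructor
  · rintro ⟨x, hx, rfl⟩
    rw [cj_cj]
    exact hx
  · intro hz
    exact ⟨cj z, hz, cj_cj z⟩

theorem cjI_mul (I J : Ideal (Rg f)) : cjI (I * J) = cjI I * cjI J := by
  unfold cjI
  exact Ideal.map_mul _ I J

theorem cjI_span (z : Rg f) : cjI (Ideal.span {z}) = Ideal.span {cj z} := by
  unfold cjI
  rw [Ideal.map_span, Set.image_singleton]

theorem cjI_idl (h : SP f u v) : cjI (idl f u v) = idl f u (-v) := by
  ext z
  rw [mem_cjI, mem_idl h, mem_idl h.neg]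
  have h1 : (cj z).re + (cj z).im * v = z.re + z.im * -v := by
    simp [cj]
  rw [h1]

private theorem coprime3 (hf : Inert f) {w : k[X]} (hw : f - v ^ 2 = u * w) :
    ∃ r s t : k[X], r * u + s * v + t * w = 1 := by
  have h1 : IsUnit (EuclideanDomain.gcd u (EuclideanDomain.gcd v w)) := by
    apply hf.sqf
    set d := EuclideanDomain.gcd u (EuclideanDomain.gcd v w) with hd
    have d1 : d ∣ u := EuclideanDomain.gcd_dvd_left _ _
    have d2 : d ∣ EuclideanDomain.gcd v w := EuclideanDomain.gcd_dvd_right _ _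
    have d3 : d ∣ v := d2.trans (EuclideanDomain.gcd_dvd_left _ _)
    have d4 : d ∣ w := d2.trans (EuclideanDomain.gcd_dvd_right _ _)
    have e1 : f = v * v + u * w := by linear_combination hw
    rw [e1]
    exact dvd_add (mul_dvd_mul d3 d3) (mul_dvd_mul d1 d4)
  rw [EuclideanDomain.gcd_isUnit_iff] at h1
  obtain ⟨a, b, hab⟩ := h1
  have h2 := EuclideanDomain.gcd_eq_gcd_ab v w
  refine ⟨a, b * EuclideanDomain.gcdA v w, b * EuclideanDomain.gcdB v w, ?_⟩
  rw [← hab, h2]
  ring

theorem idl_mul_cj (hf : Inert f) (h : SP f u v) :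
    idl f u v * idl f u (-v) = Ideal.span {rl u} := by
  obtain ⟨w, hw⟩ := h.2
  unfold idl
  rw [Ideal.span_pair_mul_span_pair]
  apply le_antisymm
  · rw [Ideal.span_le]
    rintro z (rfl | rfl | rfl | rfl)
    · exact Ideal.mul_mem_left _ _ (Ideal.mem_span_singleton_self _)
    · exact Ideal.mul_mem_right _ _ (Ideal.mem_span_singleton_self _)
    · exact Ideal.mul_mem_left _ _ (Ideal.mem_span_singleton_self _)
    · rw [SetLike.mem_coe, Ideal.mem_span_singleton]
      refine ⟨rl w, ?_⟩
      ext1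
      · simp only [QuadraticAlgebra.re_mul]
        linear_combination hw
      · simp only [QuadraticAlgebra.im_mul]
        ring
  · rw [Ideal.span_le, Set.singleton_subset_iff, SetLike.mem_coe]
    obtain ⟨r, s, t, hr⟩ := coprime3 hf hw
    have h2 : (C (2 : k)⁻¹ : k[X]) * 2 = 1 := by
      have : (2 : k[X]) = C (2 : k) := (map_ofNat (C : k →+* k[X]) 2).symm
      rw [this, ← C_mul, inv_mul_cancel₀ hf.two, C_1]
    set J : Ideal (Rg f) := Ideal.span {rl u * rl u, rl u * ⟨- -v, 1⟩, ⟨-v, 1⟩ * rl u,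
      ⟨-v, 1⟩ * ⟨- -v, 1⟩} with hJ
    have j1 : (rl u * rl u : Rg f) ∈ J := Ideal.subset_span (by simp)
    have j2 : (rl u * ⟨- -v, 1⟩ : Rg f) ∈ J := Ideal.subset_span (by simp)
    have j3 : (⟨-v, 1⟩ * rl u : Rg f) ∈ J := Ideal.subset_span (by simp)
    have j4 : (⟨-v, 1⟩ * ⟨- -v, 1⟩ : Rg f) ∈ J := Ideal.subset_span (by simp)
    have h3 : (rl u : Rg f) = rl r * (rl u * rl u) +
        rl (C (2 : k)⁻¹ * s) * (rl u * ⟨- -v, 1⟩ - ⟨-v, 1⟩ * rl u) +
        rl t * (⟨-v, 1⟩ * ⟨- -v, 1⟩) := by
      ext1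
      · simp only [QuadraticAlgebra.re_add, QuadraticAlgebra.re_mul, QuadraticAlgebra.re_sub,
          QuadraticAlgebra.im_mul, QuadraticAlgebra.im_sub]
        linear_combination (-u) * hr - t * hw - (s * u * v) * h2
      · simp only [QuadraticAlgebra.im_add, QuadraticAlgebra.re_mul, QuadraticAlgebra.re_sub,
          QuadraticAlgebra.im_mul, QuadraticAlgebra.im_sub]
        ring
    rw [h3]
    exact J.add_mem (J.add_mem (J.mul_mem_left _ j1) (J.mul_mem_left _ (J.sub_mem j2 j3)))
      (J.mul_mem_left _ j4)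

theorem idl_one : idl f 1 0 = ⊤ := by
  rw [Ideal.eq_top_iff_one]
  unfold idl
  exact Ideal.subset_span (by left; rfl)

end Pool.Agent.HyE
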