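import Pool.Agent.HyE.Defs

/-!
# Package HyE-Norm: the norm

Complete proofs. `nm_deg`: if `deg a ≠ deg b + g + 1` the degrees of `a²` and `f b²` differ
(`natDegree_sub_eq_left_of_natDegree_lt`, ...); if they are equal then the coefficient of
`X ^ (2 deg a)` of `a² - f b²` is `lc(a)² - lc(f) lc(b)²`, which is not `0` as `lc(f)` is not a square
(in particular `f ≠ 0` as `0` is a square). `nm_ne`: if `b = 0` then `nm = a²`, otherwise by
`nm_deg` the degree is positive. `isDomain`: by `nm_mul` and `nm_ne` (model: HTate/Domain.lean,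
`rg_isDomain`).
-/

set_option autoImplicit false

noncomputable section

namespace Pool.Agent.HyE

open Polynomial
open scoped Classical

variable {k : Type} [Field k] {f : k[X]}

theorem natDegree_inert (hf : Inert f) : f.natDegree = 2 * gn f + 2 := by
  obtain ⟨r, hr⟩ := hf.even
  have h2 := hf.pos
  unfold gn
  omega

theorem nm_mul (z w : Rg f) : nm (z * w) = nm z * nm w := by
  unfold nm
  simp only [QuadraticAlgebra.re_mul, QuadraticAlgebra.im_mul]
  ring

theorem mul_cj (z : Rg f) : z * cj z = rl (nm z) := by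
  ext1
  · simp only [QuadraticAlgebra.re_mul, cj, nm, RingEquiv.coe_mk, Equiv.coe_fn_mk]
    ring
  · simp only [QuadraticAlgebra.im_mul, cj, RingEquiv.coe_mk, Equiv.coe_fn_mk]
    ring

theorem cj_cj (z : Rg f) : cj (cj z) = z := by
  ext1 <;> simp [cj]

theorem nm_cj (z : Rg f) : nm (cj z) = nm z := by
  simp [nm, cj]

theorem nm_rl (a : k[X]) : nm (rl a : Rg f) = a ^ 2 := by
  simp [nm]

private theorem inert_ne (hf : Inert f) : f ≠ 0 := by
  rintro rfl
  have := hf.pos
  simp at this

private theorem deg_fb (hf : Inert f) {b : k[X]} (hb : b ≠ 0) :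
    (f * b ^ 2).natDegree = 2 * (b.natDegree + gn f + 1) := by
  rw [natDegree_mul (inert_ne hf) (pow_ne_zero 2 hb), natDegree_pow, natDegree_inert hf]
  ring

theorem nm_deg (hf : Inert f) (z : Rg f) (h : z.im ≠ 0) :
    (nm z).natDegree = 2 * max z.re.natDegree (z.im.natDegree + gn f + 1) := by
  obtain ⟨a, b⟩ := z
  simp only at h
  have h1 : (a ^ 2).natDegree = 2 * a.natDegree := natDegree_pow a 2
  have h2 : (f * b ^ 2).natDegree = 2 * (b.natDegree + gn f + 1) := deg_fb hf h
  simp only [nm]
  rcases lt_trichotomy a.natDegree (b.natDegree + gn f + 1) with hlt | heq | hgt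
  · rw [natDegree_sub_eq_right_of_natDegree_lt (by omega), h2, max_eq_right hlt.le]
  · rw [max_eq_right heq.le]
    apply natDegree_eq_of_le_of_coeff_ne_zero
    · refine (natDegree_sub_le _ _).trans ?_
      rw [h1, h2, heq, max_self]
    · rw [coeff_sub]
      have e1 : (a ^ 2).coeff (2 * (b.natDegree + gn f + 1)) = a.leadingCoeff ^ 2 := by
        rw [← heq, ← h1, coeff_natDegree, leadingCoeff_pow]
      have e2 : (f * b ^ 2).coeff (2 * (b.natDegree + gn f + 1)) =
          f.leadingCoeff * b.leadingCoeff ^ 2 := by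
        rw [← h2, coeff_natDegree, leadingCoeff_mul, leadingCoeff_pow]
      rw [e1, e2]
      intro h0
      apply hf.lead
      have hb : b.leadingCoeff ≠ 0 := leadingCoeff_ne_zero.mpr h
      refine ⟨a.leadingCoeff / b.leadingCoeff, ?_⟩
      field_simp
      linear_combination -h0
  · rw [natDegree_sub_eq_left_of_natDegree_lt (by omega), h1, max_eq_left hgt.le]

theorem nm_deg0 (z : Rg f) (h : z.im = 0) : (nm z).natDegree = 2 * z.re.natDegree := by
  simp [nm, h]

theorem nm_ne (hf : Inert f) {z : Rg f} (h : z ≠ 0) : nm z ≠ 0 := by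
  by_cases hi : z.im = 0
  · have hr : z.re ≠ 0 := by
      intro hr
      apply h
      ext1
      · simpa using hr
      · simpa using hi
    have : nm z = z.re ^ 2 := by simp [nm, hi]
    rw [this]
    exact pow_ne_zero 2 hr
  · intro h0
    have h1 := nm_deg hf z hi
    rw [h0, natDegree_zero] at h1
    have := le_max_right z.re.natDegree (z.im.natDegree + gn f + 1)
    omega

theorem nm_even (hf : Inert f) (z : Rg f) : Even (nm z).natDegree := by
  by_cases hi : z.im = 0
  · rw [nm_deg0 z hi]
    exact even_two_mul _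
  · rw [nm_deg hf z hi]
    exact even_two_mul _

/-- a polynomial `v` is not a square root of `f` -/
theorem sub_sq_ne (hf : Inert f) (v : k[X]) : f - v ^ 2 ≠ 0 := by
  have h1 : (⟨v, 1⟩ : Rg f) ≠ 0 := by
    intro h
    have := congrArg QuadraticAlgebra.im h
    simp at this
  have h2 := nm_ne hf h1
  intro h3
  apply h2
  simp only [nm]
  linear_combination -h3

theorem isDomain (hf : Inert f) : IsDomain (Rg f) := by
  have : Nontrivial (Rg f) := by
    refine ⟨⟨⟨0, 0⟩, ⟨1, 0⟩, ?_⟩⟩
    intro h
    have := congrArg QuadraticAlgebra.re h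
    simp at this
  have : NoZeroDivisors (Rg f) := by
    refine ⟨?_⟩
    intro z w h
    by_contra h'
    push Not at h'
    have h1 := nm_mul z w
    rw [h] at h1
    have h2 : nm (0 : Rg f) = 0 := by simp [nm]
    rw [h2] at h1
    exact mul_ne_zero (nm_ne hf h'.1) (nm_ne hf h'.2) h1.symm
  exact NoZeroDivisors.to_isDomain _

instance [h : Fact (Inert f)] : IsDomain (Rg f) := isDomain h.out

end Pool.Agent.HyE
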