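import Pool.Agent.HyE.FDefs
import Pool.Agent.PRc.Delta

/-!
# Package HyE-Par: the valid parameters are definable

Complete proofs.

* `vpar_def`: `v 0` is a prime (`ECD.delta_prime`), and: `natDegree = 2 g + 2` (`PRD.degEq`),
  `v 0 ≠ 2`, `IsCoprime f f'` (`PRD.coprime`, `PRP.dvt`; over the perfect field `ZMod p` squarefree is
  the same as separable: `PerfectField.separable_iff_squarefree`), the point condition (`PRD.eq`,
  `PRP.eval`), all by `PRc.prd_delta'`; the leading coefficient is not a square: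
  `∀ y < p, ¬ y² = f.leadingCoeff` in `ZMod p`: bounded quantifier over the number `y`, the relation
  by `prd_delta'` with the variables `(y, v)`. `pol g` is in `PRP` (`PRP.ofFn`).
* `vpar_ex`: a prime `p ≡ 3 mod 4`, `p > 2 g + 2` (`Nat.exists_prime_gt_modEq_one` is not enough; use
  Dirichlet `Nat.forall_exists_prime_gt_and_eq_mod` or `Nat.infinite_setOf_prime_and_eq_mod`, or the
  elementary proof), `f = 1 - X^(2g+2)`, point `(0, 1)`: the leading coefficient `-1` is not a square
  (`ZMod.exists_sq_eq_neg_one_iff`), `f` is separable as `p` does not divide `2 g + 2`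
  (`Polynomial.separable_X_pow_sub_C`-like).
-/

set_option autoImplicit false

noncomputable section

namespace Pool.Agent.HyE

open Polynomial Pool.Agent.PRc Pool.Agent.Grz
open scoped Classical

/-- the polynomial as a family -/
private def PolF (g : ℕ) : FP (Fin (2 * g + 5)) := fun _ _ x => pol g x

/-- the coefficients as families -/
private def CfF (g : ℕ) (i : Fin (2 * g + 3)) : FF (Fin (2 * g + 5)) :=
  fun _ _ x => x ⟨(i : ℕ) + 2, by omega⟩

private theorem prp_pol (g : ℕ) : PRP (PolF g) := by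
  have h : PRP (fun k _ x => ∑ i : Fin (2 * g + 3), Polynomial.C (CfF g i k x) *
      Polynomial.X ^ (i : ℕ)) := PRP.ofFn (F := CfF g)
        (fun i => PRF.var (⟨(i : ℕ) + 2, by omega⟩ : Fin (2 * g + 5)))
  exact h.congr fun k _ x => by
    unfold PolF pol CfF
    rfl

/-- the point condition -/
private def PtR (g : ℕ) : FR (Fin (2 * g + 5)) := fun k _ x =>
  (g % 2 = 1 → x 1 ^ 2 = (PolF g k x).eval (x 0))

private theorem prd_pt (g : ℕ) : PRD (PtR g) := by
  by_cases hg : g % 2 = 1
  · have h1 := PRD.eq (PRF.pow (PRF.var (1 : Fin (2 * g + 5))) 2)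
        (PRP.eval (prp_pol g) (PRF.var 0))
    exact h1.congr fun k _ x => ⟨fun h => h hg, fun h _ => h⟩
  · exact PRD.true.congr fun k _ x => ⟨fun _ => trivial, fun _ h => absurd h hg⟩

/-- the main part of the conditions, without the leading coefficient -/
private def Main (g : ℕ) : FR (Fin (2 * g + 5)) := fun k _ x =>
  (PolF g k x).natDegree = 2 * g + 2 ∧ ¬ ((2 : ℕ) : k) = ((0 : ℕ) : k) ∧
    IsCoprime (PolF g k x) (derivative (PolF g k x)) ∧ PtR g k x

private theorem prd_main (g : ℕ) : PRD (Main g) :=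
  (PRD.degEq (prp_pol g) (2 * g + 2)).and ((PRD.not (PRD.eq (PRF.nat 2) (PRF.nat 0))).and
    ((PRD.coprime (prp_pol g) (PRP.dvt (prp_pol g))).and (prd_pt g)))

/-- the tail of the variables as families -/
private def TlF (g : ℕ) (i : Fin (2 * g + 5)) : FF (Fin (2 * g + 6)) :=
  fun _ _ x => x i.succ

/-- the variable `0` is a square root of the leading coefficient -/
private def Root (g : ℕ) : FR (Fin (2 * g + 6)) := fun k _ x =>
  x 0 ^ 2 = (PolF g k (fun i => TlF g i k x)).leadingCoeff

private theorem prd_root (g : ℕ) : PRD (Root g) :=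
  PRD.eq (PRF.pow (PRF.var 0) 2) (PRF.lead (PRP.comp (prp_pol g)
    (G := TlF g) (fun i => PRF.var i.succ)))

/-- the variables `y`, `v 1`, .. -/
private def cv {g : ℕ} (y : ℕ) (v : Fin (2 * g + 6) → ℕ) (i : Fin (2 * g + 6)) : ℕ :=
  Fin.cases (motive := fun _ => ℕ) y (fun j => v j.succ) i

theorem vpar_def (g : ℕ) : Delta0 (2 * g + 6) (VPar g) := by
  have h1 := prd_delta' (n := 2 * g + 6) (prd_main g) (p := fun v => v 0)
    (a := fun i v => v i.succ) (DFun.proj 0) (fun i => DFun.proj i.succ)
  have h2 := prd_delta' (n := 2 * g + 6 + 1) (prd_root g) (p := fun w => w (Fin.succ 0))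
    (a := fun i w => cv (w 0) (fun j => w j.succ) i) (DFun.proj _)
    (fun i => by
      induction i using Fin.cases with
      | zero => exact DFun.proj 0
      | succ j => exact DFun.proj j.succ.succ)
  have h3 : Delta0 (2 * g + 6) (fun v => ∃ y, y ≤ v 0 ∧ ∃ h : (v 0).Prime,
      haveI := Fact.mk h; Root g (ZMod (v 0)) (fun i => (cv y v i : ZMod (v 0)))) :=
    Delta0.bexFun (n := 2 * g + 6) (b := fun v => v 0)
      (P := fun y v => ∃ h : (v 0).Prime, haveI := Fact.mk h;
        Root g (ZMod (v 0)) (fun i => (cv y v i : ZMod (v 0)))) (DFun.proj 0) h2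
  refine (h1.and h3.not).of_iff fun v => ?_
  constructor
  · rintro ⟨h, hI, hd, hp⟩
    have := Fact.mk h
    refine ⟨⟨h, hd, ?_, ?_, ?_⟩, ?_⟩
    · simpa using hI.two
    · exact PerfectField.separable_iff_squarefree.mpr hI.sqf
    · exact hp
    · rintro ⟨y, -, h', hy⟩
      apply hI.lead
      refine ⟨(y : ZMod (v 0)), ?_⟩
      rw [← pow_two]
      exact hy.symm
  · rintro ⟨⟨h, hd, h2', hc, hp⟩, hn⟩
    have := Fact.mk h
    have hd' : (vpol g v).natDegree = 2 * g + 2 := hd
    refine ⟨h, ⟨?_, ?_, ?_, ?_, ?_⟩, hd', hp⟩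
    · rw [hd']
      exact ⟨g + 1, by ring⟩
    · rw [hd']
      omega
    · rintro ⟨r, hr⟩
      apply hn
      refine ⟨r.val, (ZMod.val_lt r).le, h, ?_⟩
      show ((r.val : ℕ) : ZMod (v 0)) ^ 2 = _
      rw [ZMod.natCast_zmod_val, pow_two]
      exact hr.symm
    · exact PerfectField.separable_iff_squarefree.mp hc
    · simpa using h2'

private def vex (g p : ℕ) : Fin (2 * g + 6) → ℕ := fun i =>
  if (i : ℕ) = 0 then p else if (i : ℕ) = 2 then 1 else if (i : ℕ) = 3 then 1 else
    if (i : ℕ) = 2 * g + 5 then p - 1 else 0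

private theorem pol_vex {k : Type} [Field k] (g : ℕ) (c : Fin (2 * g + 5) → k)
    (h0 : c ⟨2, by omega⟩ = 1) (h1 : c ⟨2 * g + 4, by omega⟩ = -1)
    (h2 : ∀ i : Fin (2 * g + 5), 2 < (i : ℕ) → (i : ℕ) < 2 * g + 4 → c i = 0) :
    pol g c = -(X ^ (2 * g + 2) - C 1) := by
  unfold pol
  rw [Fin.sum_univ_succ, Fin.sum_univ_castSucc, Finset.sum_eq_zero]
  · have e0 : c ⟨((0 : Fin (2 * g + 3)) : ℕ) + 2, by omega⟩ = 1 := h0
    have e1 : c ⟨((Fin.last (2 * g + 1)).succ : Fin (2 * g + 3)) + 2, by
        simp⟩ = -1 := by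
      rw [← h1]
      congr 1
    rw [e0, e1]
    simp only [Fin.val_zero, pow_zero, mul_one, Fin.val_succ, Fin.val_last, zero_add, map_neg,
      map_one]
    ring
  · intro i _
    have : c ⟨((i.castSucc.succ : Fin (2 * g + 3)) : ℕ) + 2, by
        have := i.isLt
        simp only [Fin.val_succ, Fin.val_castSucc]
        omega⟩ = 0 := by
      apply h2
      · simp
      · have := i.isLt
        simp
        omega
    rw [this]
    simp

theorem vpar_ex (g : ℕ) : ∃ v, VPar g v := by
  have hu : IsUnit (3 : ZMod 4) := by decide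
  obtain ⟨p, hp, hpp, hp4⟩ := Nat.forall_exists_prime_gt_and_eq_mod hu (2 * g + 2)
  have hp4' : p % 4 = 3 := by
    have h := (ZMod.natCast_eq_natCast_iff' p 3 4).mp (by simpa using hp4)
    simpa using h
  have hz : vex g p 0 = p := by simp [vex]
  have key : ∀ q : ℕ, q = p → ∀ h : q.Prime, haveI := Fact.mk h;
      Inert (pol g (fun i => (vex g p i.succ : ZMod q))) ∧
      (pol g (fun i => (vex g p i.succ : ZMod q))).natDegree = 2 * g + 2 ∧
      (g % 2 = 1 → (vex g p 2 : ZMod q) ^ 2 =
        (pol g (fun i => (vex g p i.succ : ZMod q))).eval (vex g p 1 : ZMod q)) := by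
    rintro q rfl h
    have := Fact.mk h
    have hq2 : q ≠ 2 := by omega
    have e : pol g (fun i => (vex g q i.succ : ZMod q)) = -(X ^ (2 * g + 2) - C 1) := by
      apply pol_vex
      · simp [vex]
      · have e2 : vex g q (Fin.succ ⟨2 * g + 4, by omega⟩) = q - 1 := by
          show (if 2 * g + 4 + 1 = 0 then q else if 2 * g + 4 + 1 = 2 then 1 else
            if 2 * g + 4 + 1 = 3 then 1 else if 2 * g + 4 + 1 = 2 * g + 5 then q - 1 else 0) = q - 1
          rw [if_neg (by omega), if_neg (by omega), if_neg (by omega), if_pos (by omega)]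
        rw [e2, Nat.cast_sub h.one_le]
        simp
      · intro i h1 h2
        have e2 : vex g q i.succ = 0 := by
          show (if (i : ℕ) + 1 = 0 then q else if (i : ℕ) + 1 = 2 then 1 else
            if (i : ℕ) + 1 = 3 then 1 else if (i : ℕ) + 1 = 2 * g + 5 then q - 1 else 0) = 0
          rw [if_neg (by omega), if_neg (by omega), if_neg (by omega), if_neg (by omega)]
        rw [e2]
        simp
    rw [e]
    have hN : ((2 * g + 2 : ℕ) : ZMod q) ≠ 0 := by
      intro h0
      rw [ZMod.natCast_eq_zero_iff] at h0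
      have := Nat.le_of_dvd (by omega) h0
      omega
    have hd : (-(X ^ (2 * g + 2) - C (1 : ZMod q)) : (ZMod q)[X]).natDegree = 2 * g + 2 := by
      rw [natDegree_neg, natDegree_X_pow_sub_C]
    refine ⟨⟨?_, ?_, ?_, ?_, ?_⟩, hd, ?_⟩
    · rw [hd]
      exact ⟨g + 1, by ring⟩
    · rw [hd]
      omega
    · rw [leadingCoeff_neg, (monic_X_pow_sub_C (1 : ZMod q) (by omega)).leadingCoeff,
        ZMod.exists_sq_eq_neg_one_iff]
      simpa using hp4'
    · have hs : Squarefree (X ^ (2 * g + 2) - C (1 : ZMod q)) :=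
        (separable_X_pow_sub_C (1 : ZMod q) hN one_ne_zero).squarefree
      exact (Associated.squarefree_iff (Associated.neg_left (Associated.refl _))).mpr hs
    · intro h0
      have h2 : (2 : ℕ) = (0 : ZMod q) := by exact_mod_cast h0
      rw [ZMod.natCast_eq_zero_iff] at h2
      have := (Nat.prime_dvd_prime_iff_eq h Nat.prime_two).mp h2
      exact hq2 this
    · intro _
      have e1 : vex g q 1 = 0 := by
        show (if (1 : ℕ) = 0 then q else if (1 : ℕ) = 2 then 1 else
          if (1 : ℕ) = 3 then 1 else if (1 : ℕ) = 2 * g + 5 then q - 1 else 0) = 0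
        rw [if_neg (by omega), if_neg (by omega), if_neg (by omega), if_neg (by omega)]
      have e2 : vex g q 2 = 1 := by
        show (if (2 : ℕ) = 0 then q else if (2 : ℕ) = 2 then 1 else
          if (2 : ℕ) = 3 then 1 else if (2 : ℕ) = 2 * g + 5 then q - 1 else 0) = 1
        rw [if_neg (by omega), if_pos rfl]
      rw [e1, e2]
      simp
  refine ⟨vex g p, ?_⟩
  have hpr : (vex g p 0).Prime := by rw [hz]; exact hpp
  exact ⟨hpr, key _ hz hpr⟩

/-- the parameters `v`, or fixed valid parameters if `v` is not valid -/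
def par (g : ℕ) (v : Fin (2 * g + 6) → ℕ) : Par g :=
  if h : VPar g v then ⟨v, h⟩ else ⟨_, (vpar_ex g).choose_spec⟩

theorem par_v_def (g : ℕ) (i : Fin (2 * g + 6)) :
    DFun (2 * g + 6) (fun v => (par g v).v i) := by
  have h : DFun (2 * g + 6) (fun v => if VPar g v then v i else (vpar_ex g).choose i) :=
    DFun.ite (vpar_def g) (DFun.proj i) (DFun.const _)
  have e : (fun v => (par g v).v i) = (fun v => if VPar g v then v i else
      (vpar_ex g).choose i) := by
    funext v
    unfold par
    split_ifs <;> rfl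
  rw [e]
  exact h

end Pool.Agent.HyE
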